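import Pool.Agent.X280.ED.Law

/-! Almost periodicity on the edge line. -/

set_option autoImplicit false

namespace Pool.Agent.X280.ED

open Finset MeasureTheory Filter Topology Pool.Agent.X280.EB
open scoped ENNReal

theorem fs_add (s : Finset ℕ) (a b : ℝ) : fs s (a + b) = fs s a + fs s b := by
  funext p
  exact fl_add a b p

theorem int_pos {Y : Type} [TopologicalSpace Y] [CompactSpace Y] [MeasurableSpace Y] [BorelSpace Y]
    (μ : Measure Y) [IsFiniteMeasure μ] [μ.IsOpenPosMeasure] {ψ : Y → ℝ} (hc : Continuous ψ)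
    (h0 : ∀ y, 0 ≤ ψ y) {y₀ : Y} (hy : ψ y₀ ≠ 0) : 0 < ∫ y, ψ y ∂μ :=
  hc.integral_pos_of_hasCompactSupport_nonneg_nonzero (HasCompactSupport.of_compactSpace ψ) h0 hy

instance : (hU).IsOpenPosMeasure := by unfold hU; infer_instance

/-- the uniform distribution on the finite torus -/
noncomputable def mT (s : Finset ℕ) : Measure (UnitAddTorus s) := Measure.pi fun _ : s => hU

instance (s : Finset ℕ) : IsProbabilityMeasure (mT s) := by unfold mT; infer_instance

instance (s : Finset ℕ) : (mT s).IsOpenPosMeasure := by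
  unfold mT
  infer_instance

section
variable {ι : Type} [Fintype ι] {r : ι → ℕ} {x : ∀ i, ℕ → Fin (r i) → ℂ}

/-- The almost periods of the truncated logarithms are relatively dense. -/
theorem ap_tr (hx : ∀ i, ∀ p : ℕ, p.Prime → ∀ j, ‖x i p j‖ ≤ 1) (z : ℕ) {δ : ℝ} (hδ : 0 < δ) :
    ∃ l : ℝ, 0 < l ∧ ∀ a : ℝ, ∃ τ ∈ Set.Icc a (a + l), ∀ i t,
      ‖TR z (x i) 0 (t + τ) - TR z (x i) 0 t‖ ≤ δ := by
  have hc : ∀ i, Continuous fun y : UnitAddTorus (pz z) => YY z (x i) (ext0 z y) := fun i =>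
    (cont_YY (hx i) z).comp (cont_ext0 z)
  set Fc : C(UnitAddTorus (pz z) × UnitAddTorus (pz z), ι → ℂ) :=
    ⟨fun q => fun i => YY z (x i) (ext0 z (q.2 + q.1)) - YY z (x i) (ext0 z q.2),
      continuous_pi fun i => ((hc i).comp (continuous_snd.add continuous_fst)).sub
        ((hc i).comp continuous_snd)⟩ with hF
  set ψ : UnitAddTorus (pz z) → ℝ := fun y => max 0 (δ - ‖Fc.curry y‖) with hψ
  have hψc : Continuous ψ :=
    continuous_const.max (continuous_const.sub (Fc.curry.continuous.norm))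
  have hψ0 : ∀ y, 0 ≤ ψ y := fun y => le_max_left _ _
  have h0 : ψ 0 ≠ 0 := by
    have : Fc.curry 0 = 0 := by
      ext v i
      simp [hF]
    simp only [hψ, this, norm_zero, sub_zero]
    rw [max_eq_right hδ.le]
    exact hδ.ne'
  have hE : 0 < ∫ y, ψ y ∂(mT (pz z)) := int_pos (mT (pz z)) hψc hψ0 h0
  obtain ⟨E, hE'⟩ : ∃ E : ℝ, E = ∫ y, ψ y ∂(mT (pz z)) := ⟨_, rfl⟩
  rw [← hE'] at hE
  have h1 := equi (s := pz z) (fun p hp => (mem_pz.1 hp).2)
    ⟨fun y => ((ψ y : ℝ) : ℂ), Complex.continuous_ofReal.comp hψc⟩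
  have e1 : ∫ y, ((ψ y : ℝ) : ℂ) ∂(Measure.pi fun _ : pz z => hU) = (E : ℂ) := by
    rw [hE']
    exact integral_complex_ofReal (μ := mT (pz z))
  simp only [ContinuousMap.coe_mk] at h1
  rw [e1] at h1
  obtain ⟨T₀, hT₀, h2⟩ := h1 (E / 2) (half_pos hE)
  refine ⟨T₀, hT₀, fun a => ?_⟩
  have h3 := h2 T₀ le_rfl a
  obtain ⟨τ, hτ, h4⟩ : ∃ τ ∈ Set.Icc a (a + T₀), ψ (fs (pz z) τ) ≠ 0 := by
    by_contra hne
    push Not at hne
    have h4 : av (fun t => ((ψ (fs (pz z) t) : ℝ) : ℂ)) a T₀ = 0 := by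
      unfold av
      have : ∫ t in a..(a + T₀), ((ψ (fs (pz z) t) : ℝ) : ℂ) = ∫ t in a..(a + T₀), (0 : ℂ) := by
        refine intervalIntegral.integral_congr fun t ht => ?_
        rw [Set.uIcc_of_le (by linarith)] at ht
        simp only [hne t ht, Complex.ofReal_zero]
      rw [this]
      simp
    rw [h4, zero_sub, norm_neg, Complex.norm_real, Real.norm_eq_abs, abs_of_pos hE] at h3
    linarith
  refine ⟨τ, hτ, fun i t => ?_⟩
  have h5 : ‖Fc.curry (fs (pz z) τ)‖ < δ := by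
    by_contra h
    push Not at h
    refine h4 (max_eq_left ?_)
    linarith
  have h6 := (Fc.curry (fs (pz z) τ)).norm_coe_le_norm (fs (pz z) t)
  have h7 := norm_le_pi_norm (Fc.curry (fs (pz z) τ) (fs (pz z) t)) i
  have h8 : Fc.curry (fs (pz z) τ) (fs (pz z) t) i =
      TR z (x i) 0 (t + τ) - TR z (x i) 0 t := by
    rw [TR_ext z z le_rfl, TR_ext z z le_rfl, fs_add]
    rfl
  rw [h8] at h7
  linarith

variable {g : ι → ℝ → ℂ} {X : ι → (ℕ → UnitAddCircle) → ℂ}

/-- **Almost periodicity in mean square** over the unit intervals. -/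
theorem ap (H : Bd x g X) {η : ℝ} (hη : 0 < η) :
    ∃ l : ℝ, 0 < l ∧ ∀ a : ℝ, ∃ τ ∈ Set.Icc a (a + l), ∀ i b,
      ∫⁻ t in Set.Icc b (b + 1), ENNReal.ofReal (‖g i (t + τ) - g i t‖ ^ 2) ≤ ENNReal.ofReal η := by
  set S : ℝ := ∑ i, 4 * (r i : ℝ) ^ 2 with hS
  have hS0 : 0 ≤ S := Finset.sum_nonneg fun i _ => by positivity
  obtain ⟨z, hz⟩ : ∃ z, S * Dz z ≤ η / 9 := by
    have h2 : Tendsto (fun z => S * Dz z) atTop (𝓝 0) := by
      have := Dz_tendsto.const_mul S
      rwa [mul_zero] at this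
    have h3 : ∀ᶠ z in atTop, S * Dz z < η / 9 := h2.eventually (Iio_mem_nhds (by positivity))
    obtain ⟨z, hz⟩ := h3.exists
    exact ⟨z, hz.le⟩
  obtain ⟨l, hl, h1⟩ := ap_tr H.hx z (δ := Real.sqrt (η / 9)) (Real.sqrt_pos.2 (by positivity))
  refine ⟨l, hl, fun a => ?_⟩
  obtain ⟨τ, hτ, h2⟩ := h1 a
  refine ⟨τ, hτ, fun i b => ?_⟩
  have hSi : 4 * (r i : ℝ) ^ 2 * Dz z ≤ η / 9 := by
    refine le_trans (mul_le_mul_of_nonneg_right ?_ (Dz_nonneg z)) hz
    exact Finset.single_le_sum (f := fun i => 4 * (r i : ℝ) ^ 2) (fun i _ => by positivity)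
      (Finset.mem_univ i)
  have hg1 : ∀ b, ∫⁻ t in Set.Icc b (b + 1), ENNReal.ofReal (‖g i t - TR z (x i) 0 t‖ ^ 2) ≤
      ENNReal.ofReal (η / 9) := fun b => (H.gt i z b).trans (ENNReal.ofReal_le_ofReal hSi)
  have hg2 : ∫⁻ t in Set.Icc b (b + 1),
      ENNReal.ofReal (‖g i (t + τ) - TR z (x i) 0 (t + τ)‖ ^ 2) ≤ ENNReal.ofReal (η / 9) := by
    have h3 := (measurePreserving_add_right volume τ).setLIntegral_comp_preimage_emb
      (MeasurableEquiv.addRight τ).measurableEmbedding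
      (fun t => ENNReal.ofReal (‖g i t - TR z (x i) 0 t‖ ^ 2)) (Set.Icc (b + τ) (b + τ + 1))
    have h4 : (fun t => t + τ) ⁻¹' Set.Icc (b + τ) (b + τ + 1) = Set.Icc b (b + 1) := by
      ext t
      simp only [Set.mem_preimage, Set.mem_Icc]
      constructor <;> intro h <;> constructor <;> linarith [h.1, h.2]
    rw [h4] at h3
    rw [h3]
    exact hg1 (b + τ)
  have hpt : ∀ t, ENNReal.ofReal (‖g i (t + τ) - g i t‖ ^ 2) ≤
      3 * ENNReal.ofReal (‖g i (t + τ) - TR z (x i) 0 (t + τ)‖ ^ 2) +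
        3 * ENNReal.ofReal (‖g i t - TR z (x i) 0 t‖ ^ 2) + 3 * ENNReal.ofReal (η / 9) := by
    intro t
    have e3 : (3 : ℝ≥0∞) = ENNReal.ofReal 3 := by simp
    rw [e3, ← ENNReal.ofReal_mul (by norm_num), ← ENNReal.ofReal_mul (by norm_num),
      ← ENNReal.ofReal_mul (by norm_num), ← ENNReal.ofReal_add (by positivity) (by positivity),
      ← ENNReal.ofReal_add (by positivity) (by positivity)]
    refine ENNReal.ofReal_le_ofReal ?_
    set A := g i (t + τ) - TR z (x i) 0 (t + τ) with hA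
    set B := g i t - TR z (x i) 0 t with hB
    set C := TR z (x i) 0 (t + τ) - TR z (x i) 0 t with hC
    have h3 : g i (t + τ) - g i t = A - B + C := by rw [hA, hB, hC]; ring
    have h4 : ‖g i (t + τ) - g i t‖ ≤ ‖A‖ + ‖B‖ + ‖C‖ := by
      rw [h3]
      exact (norm_add_le _ _).trans (add_le_add (norm_sub_le _ _) le_rfl)
    have h5 : ‖C‖ ^ 2 ≤ η / 9 := by
      have := pow_le_pow_left₀ (norm_nonneg _) (h2 i t) 2
      rwa [Real.sq_sqrt (by positivity)] at this
    have h6 := pow_le_pow_left₀ (norm_nonneg _) h4 2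
    nlinarith [sq_nonneg (‖A‖ - ‖B‖), sq_nonneg (‖A‖ - ‖C‖), sq_nonneg (‖B‖ - ‖C‖)]
  refine (lintegral_mono hpt).trans ?_
  have hm : Measurable fun t => ENNReal.ofReal (‖g i t - TR z (x i) 0 t‖ ^ 2) :=
    (((H.gm i).sub (TR_cont0 (H.hx i) z).measurable).norm.pow_const 2).ennreal_ofReal
  have hm' : Measurable fun t => ENNReal.ofReal (‖g i (t + τ) - TR z (x i) 0 (t + τ)‖ ^ 2) :=
    hm.comp (measurable_add_const τ)
  rw [lintegral_add_right _ measurable_const, lintegral_add_right _ (hm.const_mul 3),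
    lintegral_const_mul _ hm', lintegral_const_mul _ hm, lintegral_const]
  have hv : (volume.restrict (Set.Icc b (b + 1))) Set.univ = 1 := by simp
  rw [hv, mul_one]
  calc _ ≤ 3 * ENNReal.ofReal (η / 9) + 3 * ENNReal.ofReal (η / 9) + 3 * ENNReal.ofReal (η / 9) := by
        gcongr
        exact hg1 b
    _ = ENNReal.ofReal η := by
        have e3 : (3 : ℝ≥0∞) = ENNReal.ofReal 3 := by simp
        rw [e3, ← ENNReal.ofReal_mul (by norm_num), ← ENNReal.ofReal_add (by positivity)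
          (by positivity), ← ENNReal.ofReal_add (by positivity) (by positivity)]
        congr 1
        ring

end

end Pool.Agent.X280.ED
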