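import Pool.Agent.X280.ED.Powers
import Pool.Agent.X280.ED.AP

/-! The value distribution on the edge line. -/

set_option autoImplicit false

namespace Pool.Agent.X280.ED

open Finset MeasureTheory Filter Topology Pool.Agent.X280.EB
open scoped ENNReal

/-- The logarithm of the Euler product over the primes `p ≤ z` at a point of the edge line, with the
numbers `u p` in the place of `p^{-it}`. -/
noncomputable def logEP {r : ℕ} (w : ℤ) (α : ℕ → Fin r → ℂ) (z : ℕ) (u : ℕ → ℂ) : ℂ :=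
  ∑ p ∈ (Finset.Icc 1 z).filter Nat.Prime, ∑ j,
    Complex.log (1 - α p j * (p : ℂ) ^ (-((w : ℂ) / 2 + 1)) * u p)⁻¹

theorem logEP_eq {r : ℕ} (w : ℤ) (α : ℕ → Fin r → ℂ) (z : ℕ) (u : ℕ → ℂ) :
    logEP w α z u = LE z (nz w α) u := by
  unfold logEP LE pz
  refine Finset.sum_congr rfl fun p hp => Finset.sum_congr rfl fun j _ => ?_
  have hp' : p.Prime := (Finset.mem_filter.1 hp).2
  have hp0 : (0 : ℝ) < p := by exact_mod_cast hp'.pos
  have hpc : (p : ℂ) ≠ 0 := by exact_mod_cast hp'.ne_zero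
  have hlog : Complex.log (p : ℂ) = ((Real.log p : ℝ) : ℂ) := by
    rw [Complex.ofReal_log hp0.le]
    simp
  have e : (p : ℂ) ^ (-((w : ℂ) / 2 + 1)) = (((p : ℝ) ^ (-((w : ℝ) / 2)) : ℝ) : ℂ) * (p : ℂ)⁻¹ := by
    rw [Complex.cpow_def_of_ne_zero hpc, hlog, Real.rpow_def_of_pos hp0, Complex.ofReal_exp]
    have h1 : (p : ℂ)⁻¹ = Complex.exp (-((Real.log p : ℝ) : ℂ)) := by
      rw [Complex.exp_neg, ← hlog, Complex.exp_log hpc]
    rw [h1, ← Complex.exp_add]
    congr 1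
    push_cast
    ring
  rw [e]
  unfold nz
  ring_nf

theorem logEP_t {r : ℕ} (w : ℤ) (α : ℕ → Fin r → ℂ) (z : ℕ) (t : ℝ) :
    logEP w α z (fun p => (p : ℂ) ^ (-(t * Complex.I))) = TR z (nz w α) 0 t := by
  rw [logEP_eq, TR_zero]
  unfold LE
  refine Finset.sum_congr rfl fun p hp => Finset.sum_congr rfl fun j _ => ?_
  have hp' : p.Prime := (mem_pz.1 hp).2
  have hp0 : (0 : ℝ) < p := by exact_mod_cast hp'.pos
  have hpc : (p : ℂ) ≠ 0 := by exact_mod_cast hp'.ne_zero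
  have hlog : Complex.log (p : ℂ) = ((Real.log p : ℝ) : ℂ) := by
    rw [Complex.ofReal_log hp0.le]
    simp
  have e : (p : ℂ) ^ (-(t * Complex.I)) = ch (Real.log p) t := by
    rw [Complex.cpow_def_of_ne_zero hpc, hlog]
    unfold ch
    congr 1
    push_cast
    ring
  simp only [e]

/-- **The value distribution on the edge line.** -/
theorem edge_law : ∃ D : ℕ → ℝ, Tendsto D atTop (𝓝 0) ∧
    ∀ (ι : Type) [Fintype ι] (w : ι → ℤ) (r : ι → ℕ) (α : ∀ i, ℕ → Fin (r i) → ℂ),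
      (∀ i, IsSystem (w i) (α i)) →
      ∃ (g : ι → ℝ → ℂ) (X : ι → (ℕ → UnitAddCircle) → ℂ),
        (∀ i, Measurable (g i) ∧ Measurable (X i) ∧
          (∀ᵐ t : ℝ, Tendsto (fun ε => logLf (α i) (edgePt (w i) ε t)) (𝓝[>] 0) (𝓝 (g i t))) ∧
          (∀ (z : ℕ) (τ : ℝ), ∫⁻ t in Set.Icc τ (τ + 1), ENNReal.ofReal
            (‖g i t - logEP (w i) (α i) z (fun p => (p : ℂ) ^ (-(t * Complex.I)))‖ ^ 2) ≤
              ENNReal.ofReal (r i ^ 2 * D z)) ∧
          ∀ z : ℕ, ∫⁻ θ, ENNReal.ofReal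
            (‖X i θ - logEP (w i) (α i) z (fun p => (AddCircle.toCircle (θ p) : ℂ))‖ ^ 2) ∂PT ≤
              ENNReal.ofReal (r i ^ 2 * D z)) ∧
        (∀ η : ℝ, 0 < η → ∃ l : ℝ, 0 < l ∧ ∀ a : ℝ, ∃ τ ∈ Set.Icc a (a + l), ∀ (i : ι) (b : ℝ),
          ∫⁻ t in Set.Icc b (b + 1), ENNReal.ofReal (‖g i (t + τ) - g i t‖ ^ 2) ≤
            ENNReal.ofReal η) ∧
        (∀ (κ : ι → ℝ) (A : ℝ) (Φ : (ι → ℂ) → ℂ), (∀ i, 0 ≤ κ i) → ∑ i, κ i * r i < 1 →
          Continuous Φ → (∀ y, ‖Φ y‖ ≤ A * Real.exp (∑ i, κ i * ‖y i‖)) →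
          (∀ a b : ℝ, IntervalIntegrable (fun t => Φ (fun i => g i t)) volume a b) ∧
          Integrable (fun θ => Φ (fun i => X i θ)) PT ∧
          Mean (fun t => Φ (fun i => g i t)) (∫ θ, Φ (fun i => X i θ) ∂PT)) ∧
        ∀ (i : ι) (c : ℂ), ‖c‖ * r i < 1 → Mean (fun t => Complex.exp (c * g i t)) 1 := by
  obtain ⟨C, Om, hOm0, hOm, h⟩ := edge_power
  refine ⟨fun z => 4 * Dz z, ?_, fun ι _ w r α hα => ?_⟩
  · have := Dz_tendsto.const_mul 4
    rwa [mul_zero] at this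
  choose g hgm hgt hgs hge using fun i => h (w i) (r i) (α i) (hα i)
  have hx : ∀ i, ∀ p : ℕ, p.Prime → ∀ j, ‖nz (w i) (α i) p j‖ ≤ 1 := fun i => nz_le (hα i)
  choose X hXm hXt using fun i => exists_X (hx i)
  have hgt' : ∀ i, ∀ᵐ t, Tendsto (fun ε => LG (nz (w i) (α i)) ε t) (𝓝[>] 0) (𝓝 (g i t)) := by
    intro i
    filter_upwards [hgt i] with t ht
    simp_rw [logLf_eq] at ht
    exact ht
  have H : Bd (fun i => nz (w i) (α i)) g X :=
    { hx := hx
      gm := hgm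
      gt := fun i z τ => (bd_tail (hx i) (hgt' i) z τ).trans (ENNReal.ofReal_le_ofReal (by
        have h1 := Dz_nonneg z
        have h2 : 0 ≤ (r i : ℝ) ^ 2 * Dz z := by positivity
        linarith))
      Xm := hXm
      Xt := hXt }
  have he : EM r g := fun i κ h0 h1 => exp_one (hgm i) (fun z hz τ => (hge i z hz τ).2.1) h0 h1
  refine ⟨g, X, fun i => ⟨hgm i, hXm i, hgt i, fun z τ => ?_, fun z => ?_⟩, fun η hη => ap H hη,
    fun κ A Φ h0 h1 hΦ hb => ?_, fun i c hc => ?_⟩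
  · simp_rw [logEP_t]
    refine (H.gt i z τ).trans (ENNReal.ofReal_le_ofReal (le_of_eq ?_))
    ring
  · simp_rw [logEP_eq]
    refine (H.Xt i z).trans (ENNReal.ofReal_le_ofReal (le_of_eq ?_))
    ring
  · obtain ⟨h2, h3⟩ := law1 H he h0 h1 hΦ hb
    refine ⟨?_, h2, h3⟩
    have hA : 0 ≤ A := by
      have := hb 0
      simp at this
      exact (norm_nonneg _).trans this
    obtain ⟨C', hC0, hC, -⟩ := exp_X H he h0 h1
    have hgm' : Measurable fun t i => g i t := measurable_pi_lambda _ H.gm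
    have key : ∀ a b : ℝ, a ≤ b → IntegrableOn (fun t => Φ (fun i => g i t)) (Set.Ioc a b) := by
      intro a b hab
      set T := max 1 (b - a) with hT
      have hT1 : 1 ≤ T := le_max_left _ _
      have hb2 : b ≤ a + T := by have := le_max_right 1 (b - a); linarith
      have hE : Measurable fun t => Real.exp (∑ i, κ i * ‖g i t‖) :=
        Real.measurable_exp.comp (Finset.measurable_sum _ fun i _ => (hgm i).norm.const_mul _)
      have iE : IntegrableOn (fun t => Real.exp (∑ i, κ i * ‖g i t‖)) (Set.Ioc a (a + T)) := by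
        refine ⟨hE.aestronglyMeasurable, ?_⟩
        rw [hasFiniteIntegral_iff_ofReal (Eventually.of_forall fun a => (Real.exp_pos _).le)]
        exact (hC a T hT1).trans_lt ENNReal.ofReal_lt_top
      have i2 : IntegrableOn (fun t => Φ (fun i => g i t)) (Set.Ioc a (a + T)) :=
        Integrable.mono' (iE.const_mul A) (hΦ.measurable.comp hgm').aestronglyMeasurable
          (Eventually.of_forall fun t => hb _)
      exact i2.mono_set (Set.Ioc_subset_Ioc_right hb2)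
    intro a b
    rcases le_total a b with hab | hab
    · exact (intervalIntegrable_iff_integrableOn_Ioc_of_le hab).2 (key a b hab)
    · exact ((intervalIntegrable_iff_integrableOn_Ioc_of_le hab).2 (key b a hab)).symm
  · refine pow_mean (hx i) (hgm i) (c := c)
      (om := fun ε => C (‖c‖ * r i) * Om ε ^ ((1 - ‖c‖ * r i) / 2)) ?_ fun ε τ hε => ?_
    · have h1 : 0 < (1 - ‖c‖ * r i) / 2 := by linarith
      have h2 : Tendsto (fun ε => Om ε ^ ((1 - ‖c‖ * r i) / 2)) (𝓝[>] 0) (𝓝 0) := by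
        have := hOm.rpow_const (p := (1 - ‖c‖ * r i) / 2) (Or.inr h1.le)
        rwa [Real.zero_rpow h1.ne'] at this
      have := h2.const_mul (C (‖c‖ * r i))
      rwa [mul_zero] at this
    · have h1 := (hge i c hc τ).2.2 ε hε
      simp_rw [logLf_eq] at h1
      exact h1

end Pool.Agent.X280.ED
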