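import Pool.Agent.X280.ED.Rand

/-! The limit law. -/

set_option autoImplicit false

namespace Pool.Agent.X280.ED

open Finset MeasureTheory Filter Topology Pool.Agent.X280.EB
open scoped ENNReal

section
variable {r : ℕ} {x : ℕ → Fin r → ℂ}

theorem YY_bound (hx : ∀ p : ℕ, p.Prime → ∀ j, ‖x p j‖ ≤ 1) (z : ℕ) : ∃ C, ∀ θ, ‖YY z x θ‖ ≤ C := by
  obtain ⟨C, hC⟩ := isCompact_univ.exists_bound_of_continuousOn (cont_YY hx z).continuousOn
  exact ⟨C, fun θ => hC θ trivial⟩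

theorem YY_memLp (hx : ∀ p : ℕ, p.Prime → ∀ j, ‖x p j‖ ≤ 1) (z : ℕ) : MemLp (YY z x) 2 PT := by
  obtain ⟨C, hC⟩ := YY_bound hx z
  exact MemLp.of_bound (cont_YY hx z).aestronglyMeasurable C (Eventually.of_forall hC)

theorem YY_dist (hx : ∀ p : ℕ, p.Prime → ∀ j, ‖x p j‖ ≤ 1) {z z' : ℕ} (hz : z ≤ z') :
    dist ((YY_memLp hx z').toLp (YY z' x)) ((YY_memLp hx z).toLp (YY z x)) ≤
      Real.sqrt (4 * r ^ 2 * Dz z) := by
  rw [dist_edist, Lp.edist_toLp_toLp, MemLp.eLpNorm_eq_integral_rpow_norm (by norm_num)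
    (by norm_num) ((YY_memLp hx z').sub (YY_memLp hx z))]
  have e1 : ∀ θ, ‖(YY z' x - YY z x) θ‖ ^ (2 : ℝ≥0∞).toReal = ‖YY z' x θ - YY z x θ‖ ^ 2 := by
    intro θ
    rw [Pi.sub_apply]
    have : (2 : ℝ≥0∞).toReal = ((2 : ℕ) : ℝ) := by simp
    rw [this, Real.rpow_natCast]
  simp_rw [e1]
  have h0 : 0 ≤ ∫ θ, ‖YY z' x θ - YY z x θ‖ ^ 2 ∂PT := integral_nonneg fun θ => by positivity
  rw [ENNReal.toReal_ofReal (Real.rpow_nonneg h0 _)]
  have e2 : (2 : ℝ≥0∞).toReal⁻¹ = 1 / 2 := by simp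
  rw [e2, ← Real.sqrt_eq_rpow]
  exact Real.sqrt_le_sqrt (YY_diff hx hz)

/-- **The random Euler product.** -/
theorem exists_X (hx : ∀ p : ℕ, p.Prime → ∀ j, ‖x p j‖ ≤ 1) :
    ∃ X : (ℕ → UnitAddCircle) → ℂ, Measurable X ∧ ∀ z,
      ∫⁻ θ, ENNReal.ofReal (‖X θ - YY z x θ‖ ^ 2) ∂PT ≤ ENNReal.ofReal (4 * r ^ 2 * Dz z) := by
  set u : ℕ → Lp ℂ 2 PT := fun z => (YY_memLp hx z).toLp (YY z x) with hu
  have hlim : Tendsto (fun z => Real.sqrt (4 * r ^ 2 * Dz z) + Real.sqrt (4 * r ^ 2 * Dz z)) atTop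
      (𝓝 0) := by
    have h1 : Tendsto (fun z => Real.sqrt (4 * r ^ 2 * Dz z)) atTop (𝓝 0) := by
      have := (Real.continuous_sqrt.tendsto _).comp (Dz_tendsto.const_mul (4 * (r : ℝ) ^ 2))
      rw [mul_zero, Real.sqrt_zero] at this
      exact this
    simpa using h1.add h1
  have hc : CauchySeq u := by
    refine cauchySeq_of_le_tendsto_0 _ (fun n m N hn hm => ?_) hlim
    refine (dist_triangle_right _ _ (u N)).trans (add_le_add (YY_dist hx hn) (YY_dist hx hm))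
  obtain ⟨L, hL⟩ := cauchySeq_tendsto_of_complete hc
  refine ⟨L, (Lp.stronglyMeasurable L).measurable, fun z => ?_⟩
  have h1 : dist L (u z) ≤ Real.sqrt (4 * r ^ 2 * Dz z) := by
    have h2 : Tendsto (fun n => dist (u n) (u z)) atTop (𝓝 (dist L (u z))) :=
      hL.dist tendsto_const_nhds
    refine le_of_tendsto h2 ?_
    filter_upwards [eventually_ge_atTop z] with n hn
    exact YY_dist hx hn
  have h2 : edist L (u z) ≤ ENNReal.ofReal (Real.sqrt (4 * r ^ 2 * Dz z)) := by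
    rw [edist_dist]
    exact ENNReal.ofReal_le_ofReal h1
  have h3 : edist L (u z) = eLpNorm ((L : (ℕ → UnitAddCircle) → ℂ) - YY z x) 2 PT := by
    rw [Lp.edist_def]
    exact eLpNorm_congr_ae (EventuallyEq.rfl.sub (YY_memLp hx z).coeFn_toLp)
  rw [h3, eLpNorm_eq_lintegral_rpow_enorm_toReal (by norm_num) (by norm_num)] at h2
  have e1 : ∀ θ, ‖((L : (ℕ → UnitAddCircle) → ℂ) - YY z x) θ‖ₑ ^ (2 : ℝ≥0∞).toReal =
      ENNReal.ofReal (‖L θ - YY z x θ‖ ^ 2) := by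
    intro t
    rw [Pi.sub_apply, ← ofReal_norm]
    have : (2 : ℝ≥0∞).toReal = ((2 : ℕ) : ℝ) := by simp
    rw [this, ENNReal.rpow_natCast, ENNReal.ofReal_pow (norm_nonneg _)]
  simp_rw [e1] at h2
  have h4 := ENNReal.rpow_le_rpow h2 (show (0 : ℝ) ≤ 2 by norm_num)
  rw [← ENNReal.rpow_mul] at h4
  have e2 : 1 / (2 : ℝ≥0∞).toReal * 2 = 1 := by simp
  rw [e2, ENNReal.rpow_one, ENNReal.ofReal_rpow_of_nonneg (Real.sqrt_nonneg _) (by norm_num)] at h4
  have e3 : Real.sqrt (4 * r ^ 2 * Dz z) ^ (2 : ℝ) = 4 * r ^ 2 * Dz z := by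
    have := Real.rpow_natCast (Real.sqrt (4 * r ^ 2 * Dz z)) 2
    push_cast at this
    rw [this, Real.sq_sqrt (by have := Dz_nonneg z; positivity)]
  rwa [e3] at h4

end

/-- covering by unit intervals -/
theorem cover {h : ℝ → ℝ≥0∞} {B : ℝ≥0∞} (hB : ∀ τ, ∫⁻ t in Set.Icc τ (τ + 1), h t ≤ B) (a : ℝ)
    {T : ℝ} (hT : 1 ≤ T) : ∫⁻ t in Set.Ioc a (a + T), h t ≤ ENNReal.ofReal (2 * T) * B := by
  set N := ⌈T⌉₊ with hN
  have h1 : Set.Ioc a (a + T) ⊆ ⋃ k : Fin N, Set.Icc (a + (k : ℕ)) (a + (k : ℕ) + 1) := by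
    intro t ht
    have h2 : 0 < t - a := by linarith [ht.1]
    have h3 : t - a ≤ T := by linarith [ht.2]
    have hc := Nat.ceil_pos.2 h2
    have hlt : ⌈t - a⌉₊ - 1 < N := by
      have := Nat.ceil_le_ceil h3
      omega
    refine Set.mem_iUnion.2 ⟨⟨⌈t - a⌉₊ - 1, hlt⟩, ?_⟩
    have h4 := Nat.le_ceil (t - a)
    have h5 := Nat.ceil_lt_add_one h2.le
    have h6 : (((⌈t - a⌉₊ - 1 : ℕ)) : ℝ) = (⌈t - a⌉₊ : ℝ) - 1 := by
      rw [Nat.cast_sub hc]
      simp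
    constructor
    · simp only [h6]
      linarith
    · simp only [h6]
      linarith
  refine (lintegral_mono_set h1).trans ((lintegral_iUnion_le _ _).trans ?_)
  rw [tsum_fintype]
  refine (Finset.sum_le_sum fun (k : Fin N) _ => hB (a + ((k : ℕ) : ℝ))).trans ?_
  rw [Finset.sum_const, Finset.card_univ, Fintype.card_fin, nsmul_eq_mul]
  refine mul_le_mul_left ?_ B
  rw [← ENNReal.ofReal_natCast]
  refine ENNReal.ofReal_le_ofReal ?_
  have := Nat.ceil_lt_add_one (show (0 : ℝ) ≤ T by linarith)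
  linarith

/-- comparison of two mean values -/
theorem cmp {α : Type} [MeasurableSpace α] (μ : Measure α) [IsFiniteMeasure μ] {ι : Type} [Fintype ι]
    {U V : α → ι → ℂ} (hU : ∀ i, Measurable fun a => U a i) (hV : ∀ i, Measurable fun a => V a i)
    {Φ : (ι → ℂ) → ℂ} (hΦ : Continuous Φ) {M : ℝ} (hb : ∀ y, ‖Φ y‖ ≤ M) {η K : ℝ} (hK : 0 ≤ K)
    (h : ∀ u v, ‖Φ u - Φ v‖ ≤ η + K * ∑ i, ‖u i - v i‖ ^ 2) {B : ι → ℝ} (hB0 : ∀ i, 0 ≤ B i)
    (hB : ∀ i, ∫⁻ a, ENNReal.ofReal (‖U a i - V a i‖ ^ 2) ∂μ ≤ ENNReal.ofReal (B i)) :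
    ‖∫ a, Φ (U a) ∂μ - ∫ a, Φ (V a) ∂μ‖ ≤ η * μ.real Set.univ + K * ∑ i, B i := by
  have hU' : Measurable U := measurable_pi_lambda _ hU
  have hV' : Measurable V := measurable_pi_lambda _ hV
  have i1 : Integrable (fun a => Φ (U a)) μ :=
    Integrable.of_bound (hΦ.measurable.comp hU').aestronglyMeasurable M
      (Eventually.of_forall fun a => hb _)
  have i2 : Integrable (fun a => Φ (V a)) μ :=
    Integrable.of_bound (hΦ.measurable.comp hV').aestronglyMeasurable M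
      (Eventually.of_forall fun a => hb _)
  have hm : ∀ i, Measurable fun a => ‖U a i - V a i‖ ^ 2 := fun i =>
    ((hU i).sub (hV i)).norm.pow_const 2
  have i3 : ∀ i, Integrable (fun a => ‖U a i - V a i‖ ^ 2) μ := fun i => by
    refine ⟨(hm i).aestronglyMeasurable, ?_⟩
    rw [hasFiniteIntegral_iff_ofReal (Eventually.of_forall fun a => by positivity)]
    exact (hB i).trans_lt ENNReal.ofReal_lt_top
  have h3 : ∀ i, ∫ a, ‖U a i - V a i‖ ^ 2 ∂μ ≤ B i := fun i => by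
    rw [integral_eq_lintegral_of_nonneg_ae (Eventually.of_forall fun a => by positivity)
      (hm i).aestronglyMeasurable]
    exact ENNReal.toReal_le_of_le_ofReal (hB0 i) (hB i)
  rw [← integral_sub i1 i2]
  refine (norm_integral_le_integral_norm _).trans ?_
  have i4 : Integrable (fun a => K * ∑ i, ‖U a i - V a i‖ ^ 2) μ :=
    (integrable_finsetSum _ fun i _ => i3 i).const_mul K
  have h5 : ∫ a, ‖Φ (U a) - Φ (V a)‖ ∂μ ≤ ∫ a, (η + K * ∑ i, ‖U a i - V a i‖ ^ 2) ∂μ :=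
    integral_mono (i1.sub i2).norm ((integrable_const η).add i4) fun a => h _ _
  refine h5.trans ?_
  have e1 : ∫ a, (η + K * ∑ i, ‖U a i - V a i‖ ^ 2) ∂μ =
      (∫ _a, η ∂μ) + ∫ a, K * ∑ i, ‖U a i - V a i‖ ^ 2 ∂μ := integral_add (integrable_const η) i4
  rw [e1, integral_const, integral_const_mul, integral_finsetSum _ fun i _ => i3 i, smul_eq_mul,
    mul_comm η]
  have := Finset.sum_le_sum fun i (_ : i ∈ Finset.univ) => h3 i
  have := mul_le_mul_of_nonneg_left this hK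
  linarith

/-- an inequality for uniformly continuous functions -/
theorem unif {ι : Type} [Fintype ι] {Φ : (ι → ℂ) → ℂ} (hΦ : UniformContinuous Φ) {M : ℝ}
    (hb : ∀ y, ‖Φ y‖ ≤ M) {η : ℝ} (hη : 0 < η) :
    ∃ K : ℝ, 0 ≤ K ∧ ∀ u v, ‖Φ u - Φ v‖ ≤ η + K * ∑ i, ‖u i - v i‖ ^ 2 := by
  obtain ⟨δ, hδ, h1⟩ := Metric.uniformContinuous_iff.1 hΦ η hη
  have hM : 0 ≤ M := (norm_nonneg _).trans (hb 0)
  refine ⟨2 * M / δ ^ 2, by positivity, fun u v => ?_⟩
  have h0 : 0 ≤ ∑ i, ‖u i - v i‖ ^ 2 := Finset.sum_nonneg fun i _ => by positivity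
  rcases lt_or_ge (dist u v) δ with h | h
  · have := h1 h
    rw [dist_eq_norm] at this
    have h2 : 0 ≤ 2 * M / δ ^ 2 * ∑ i, ‖u i - v i‖ ^ 2 := mul_nonneg (by positivity) h0
    linarith
  · have h2 : ‖Φ u - Φ v‖ ≤ 2 * M := (norm_sub_le _ _).trans (by linarith [hb u, hb v])
    have h3 : δ ^ 2 ≤ ∑ i, ‖u i - v i‖ ^ 2 := by
      by_contra hlt
      push Not at hlt
      have h4 : dist u v < δ := by
        rw [dist_pi_lt_iff hδ]
        intro i
        rw [dist_eq_norm]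
        have h5 : ‖u i - v i‖ ^ 2 ≤ ∑ i, ‖u i - v i‖ ^ 2 :=
          Finset.single_le_sum (f := fun i => ‖u i - v i‖ ^ 2) (fun i _ => by positivity)
            (Finset.mem_univ i)
        exact lt_of_pow_lt_pow_left₀ 2 hδ.le (h5.trans_lt hlt)
      linarith
    have h4 : 2 * M ≤ 2 * M / δ ^ 2 * ∑ i, ‖u i - v i‖ ^ 2 := by
      rw [div_mul_eq_mul_div, le_div_iff₀ (by positivity)]
      exact mul_le_mul_of_nonneg_left h3 (by positivity)
    linarith

section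
variable {ι : Type} [Fintype ι] {r : ι → ℕ} {x : ∀ i, ℕ → Fin (r i) → ℂ}

/-- the hypotheses on the boundary values and the random variables -/
structure Bd (x : ∀ i, ℕ → Fin (r i) → ℂ) (g : ι → ℝ → ℂ) (X : ι → (ℕ → UnitAddCircle) → ℂ) : Prop where
  hx : ∀ i, ∀ p : ℕ, p.Prime → ∀ j, ‖x i p j‖ ≤ 1
  gm : ∀ i, Measurable (g i)
  gt : ∀ i z τ, ∫⁻ t in Set.Icc τ (τ + 1), ENNReal.ofReal (‖g i t - TR z (x i) 0 t‖ ^ 2) ≤
      ENNReal.ofReal (4 * r i ^ 2 * Dz z)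
  Xm : ∀ i, Measurable (X i)
  Xt : ∀ i z, ∫⁻ θ, ENNReal.ofReal (‖X i θ - YY z (x i) θ‖ ^ 2) ∂PT ≤
      ENNReal.ofReal (4 * r i ^ 2 * Dz z)

variable {g : ι → ℝ → ℂ} {X : ι → (ℕ → UnitAddCircle) → ℂ}

theorem law0 (H : Bd x g X) {Φ : (ι → ℂ) → ℂ} (hΦ : Continuous Φ) (hs : HasCompactSupport Φ) :
    Mean (fun t => Φ (fun i => g i t)) (∫ θ, Φ (fun i => X i θ) ∂PT) := by
  obtain ⟨M, hb⟩ := hs.exists_bound_of_continuous hΦ
  have hu := hs.uniformContinuous_of_continuous hΦ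
  intro η hη
  obtain ⟨K, hK, h1⟩ := unif hu hb (η := η / 8) (by positivity)
  set S : ℝ := ∑ i, 4 * (r i : ℝ) ^ 2 with hS
  have hS0 : 0 ≤ S := Finset.sum_nonneg fun i _ => by positivity
  obtain ⟨z, hz⟩ : ∃ z, K * (S * Dz z) * 2 ≤ η / 8 := by
    have h2 : Tendsto (fun z => K * (S * Dz z) * 2) atTop (𝓝 0) := by
      have := ((Dz_tendsto.const_mul S).const_mul K).mul_const 2
      rwa [mul_zero, mul_zero, zero_mul] at this
    have h3 : ∀ᶠ z in atTop, K * (S * Dz z) * 2 < η / 8 := h2.eventually (Iio_mem_nhds (by positivity))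
    obtain ⟨z, hz⟩ := h3.exists
    exact ⟨z, hz.le⟩
  obtain ⟨T₀, hT₀, h2⟩ := mean_tr H.hx (fun _ => z) hΦ (η / 4) (by positivity)
  have hsum : ∀ c : ℝ, ∑ i, c * (4 * (r i : ℝ) ^ 2 * Dz z) = c * (S * Dz z) := fun c => by
    rw [← Finset.mul_sum, hS, Finset.sum_mul]
  have hR : ‖∫ θ, Φ (fun i => X i θ) ∂PT - ∫ θ, Φ (fun i => YY z (x i) θ) ∂PT‖ ≤ η / 4 := by
    have h3 := cmp PT (U := fun θ i => X i θ) (V := fun θ i => YY z (x i) θ) H.Xm
      (fun i => (cont_YY (H.hx i) z).measurable) hΦ hb hK h1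
      (B := fun i => 4 * r i ^ 2 * Dz z) (fun i => by have := Dz_nonneg z; positivity)
      (fun i => H.Xt i z)
    have h4 := hsum 1
    simp only [one_mul] at h4
    rw [h4] at h3
    simp only [probReal_univ, mul_one] at h3
    have h5 : 0 ≤ K * (S * Dz z) := mul_nonneg hK (mul_nonneg hS0 (Dz_nonneg z))
    linarith
  refine ⟨max T₀ 1, by positivity, fun T hT a => ?_⟩
  have hT1 : 1 ≤ T := (le_max_right _ _).trans hT
  have hT0 : 0 < T := by linarith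
  have hG : ‖av (fun t => Φ (fun i => g i t)) a T - av (fun t => Φ (fun i => TR z (x i) 0 t)) a T‖ ≤
      η / 4 := by
    unfold av
    rw [intervalIntegral.integral_of_le (by linarith), intervalIntegral.integral_of_le (by linarith),
      ← mul_sub, norm_mul, norm_inv, Complex.norm_real, Real.norm_eq_abs, abs_of_pos hT0]
    have h3 := cmp (volume.restrict (Set.Ioc a (a + T))) (U := fun t i => g i t)
      (V := fun t i => TR z (x i) 0 t) H.gm (fun i => (TR_cont0 (H.hx i) z).measurable) hΦ hb hK h1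
      (B := fun i => 2 * T * (4 * r i ^ 2 * Dz z))
      (fun i => by have := Dz_nonneg z; positivity) (fun i => by
        refine (cover (H.gt i z) a hT1).trans (le_of_eq ?_)
        rw [← ENNReal.ofReal_mul (by positivity)])
    rw [hsum] at h3
    have e1 : (volume.restrict (Set.Ioc a (a + T))).real Set.univ = T := by
      simp [Measure.real, hT0.le]
    rw [e1] at h3
    refine (mul_le_mul_of_nonneg_left h3 (by positivity)).trans ?_
    have e2 : T⁻¹ * (η / 8 * T + K * (2 * T * (S * Dz z))) = η / 8 + K * (S * Dz z) * 2 := by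
      field_simp
    rw [e2]
    linarith
  have h3 := h2 T ((le_max_left _ _).trans hT) a
  have e : av (fun t => Φ (fun i => g i t)) a T - ∫ θ, Φ (fun i => X i θ) ∂PT =
      (av (fun t => Φ (fun i => g i t)) a T - av (fun t => Φ (fun i => TR z (x i) 0 t)) a T) +
      (av (fun t => Φ (fun i => TR z (x i) 0 t)) a T - ∫ θ, Φ (fun i => YY z (x i) θ) ∂PT) -
      (∫ θ, Φ (fun i => X i θ) ∂PT - ∫ θ, Φ (fun i => YY z (x i) θ) ∂PT) := by ring
  rw [e]
  refine (norm_sub_le _ _).trans ?_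
  have := norm_add_le
    (av (fun t => Φ (fun i => g i t)) a T - av (fun t => Φ (fun i => TR z (x i) 0 t)) a T)
    (av (fun t => Φ (fun i => TR z (x i) 0 t)) a T - ∫ θ, Φ (fun i => YY z (x i) θ) ∂PT)
  linarith

end

end Pool.Agent.X280.ED
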