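import Pool.Agent.X280.ED.Law

/-! The limit law for functions of exponential growth. -/

set_option autoImplicit false

namespace Pool.Agent.X280.ED

open Finset MeasureTheory Filter Topology Pool.Agent.X280.EB
open scoped ENNReal

/-- the absolute value is controlled by finitely many directions -/
theorem dirs {κ κ' : ℝ} (h0 : 0 ≤ κ) (h : κ < κ') : ∃ U : Finset ℂ, (∀ u ∈ U, ‖u‖ = 1) ∧
    ∀ y : ℂ, Real.exp (κ * ‖y‖) ≤ ∑ u ∈ U, Real.exp (κ' * (u * y).re) := by
  have hκ' : 0 < κ' := h0.trans_lt h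
  have hδ : 0 < 1 - κ / κ' := by
    rw [sub_pos, div_lt_one hκ']
    exact h
  obtain ⟨U, hU, hfin, hcov⟩ := finite_cover_balls_of_compact (isCompact_sphere (0 : ℂ) 1) hδ
  refine ⟨hfin.toFinset, fun u hu => by simpa using hU (hfin.mem_toFinset.1 hu), fun y => ?_⟩
  obtain ⟨v, hv1, hvy⟩ : ∃ v : ℂ, ‖v‖ = 1 ∧ v * y = (‖y‖ : ℂ) := by
    by_cases hy : y = 0
    · exact ⟨1, by simp, by simp [hy]⟩
    · have hy' : (‖y‖ : ℂ) ≠ 0 := by exact_mod_cast norm_ne_zero_iff.2 hy
      refine ⟨(starRingEnd ℂ) y / ‖y‖, ?_, ?_⟩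
      · rw [norm_div, RCLike.norm_conj, Complex.norm_real, norm_norm]
        exact div_self (norm_ne_zero_iff.2 hy)
      · rw [div_mul_eq_mul_div, mul_comm, Complex.mul_conj, Complex.normSq_eq_norm_sq]
        push_cast
        field_simp
  have hv : v ∈ ⋃ u ∈ U, Metric.ball u (1 - κ / κ') := hcov (by simpa using hv1)
  obtain ⟨u, hu, hvu⟩ := Set.mem_iUnion₂.1 hv
  have h2 : κ / κ' * ‖y‖ ≤ (u * y).re := by
    have e1 : u * y = (‖y‖ : ℂ) - (v - u) * y := by rw [← hvy]; ring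
    rw [e1, Complex.sub_re, Complex.ofReal_re]
    have h3 : ((v - u) * y).re ≤ (1 - κ / κ') * ‖y‖ := by
      refine (Complex.re_le_norm _).trans ?_
      rw [norm_mul]
      refine mul_le_mul_of_nonneg_right ?_ (norm_nonneg _)
      rw [← dist_eq_norm]
      exact hvu.le
    linarith
  have h3 : κ * ‖y‖ ≤ κ' * (u * y).re := by
    have := mul_le_mul_of_nonneg_left h2 hκ'.le
    calc κ * ‖y‖ = κ' * (κ / κ' * ‖y‖) := by field_simp
      _ ≤ _ := this
  exact (Real.exp_le_exp.2 h3).trans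
    (Finset.single_le_sum (f := fun u => Real.exp (κ' * (u * y).re)) (fun _ _ => (Real.exp_pos _).le)
      (hfin.mem_toFinset.2 hu))

theorem exp_one {r : ℕ} {g : ℝ → ℂ} (hg : Measurable g) {Cf : ℝ → ℝ}
    (h : ∀ z : ℂ, ‖z‖ * r < 1 → ∀ τ : ℝ, ∫⁻ t in Set.Icc τ (τ + 1),
      ENNReal.ofReal ‖Complex.exp (z * g t)‖ ≤ ENNReal.ofReal (Cf (‖z‖ * r))) {κ : ℝ} (h0 : 0 ≤ κ)
    (h1 : κ * r < 1) : ∃ C : ℝ, 0 ≤ C ∧ ∀ τ : ℝ, ∫⁻ t in Set.Icc τ (τ + 1),
      ENNReal.ofReal (Real.exp (κ * ‖g t‖)) ≤ ENNReal.ofReal C := by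
  have hr : (0 : ℝ) ≤ r := Nat.cast_nonneg r
  set κ' := κ + (1 - κ * r) / (2 * (r + 1)) with hκ'
  have hd : 0 < (1 - κ * r) / (2 * (r + 1)) := div_pos (by linarith) (by positivity)
  have hlt : κ < κ' := by rw [hκ']; linarith
  have hκ'r : κ' * r < 1 := by
    have e : (1 - κ * r) / (2 * (r + 1)) * (2 * (r + 1)) = 1 - κ * r := by
      field_simp
    have : (1 - κ * r) / (2 * (r + 1)) * r ≤ (1 - κ * r) / 2 := by nlinarith
    rw [hκ', add_mul]
    linarith
  obtain ⟨U, hU, hy⟩ := dirs h0 hlt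
  refine ⟨U.card * max 0 (Cf (κ' * r)), by positivity, fun τ => ?_⟩
  have hκ0 : 0 ≤ κ' := h0.trans hlt.le
  have e1 : ∀ u ∈ U, ∀ t, ENNReal.ofReal (Real.exp (κ' * (u * g t).re)) =
      ENNReal.ofReal ‖Complex.exp ((κ' * u) * g t)‖ := by
    intro u _ t
    rw [Complex.norm_exp, mul_assoc, Complex.re_ofReal_mul]
  calc ∫⁻ t in Set.Icc τ (τ + 1), ENNReal.ofReal (Real.exp (κ * ‖g t‖))
      ≤ ∫⁻ t in Set.Icc τ (τ + 1), ∑ u ∈ U, ENNReal.ofReal (Real.exp (κ' * (u * g t).re)) := by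
        refine lintegral_mono fun t => ?_
        rw [← ENNReal.ofReal_sum_of_nonneg fun _ _ => (Real.exp_pos _).le]
        exact ENNReal.ofReal_le_ofReal (hy (g t))
    _ = ∑ u ∈ U, ∫⁻ t in Set.Icc τ (τ + 1), ENNReal.ofReal (Real.exp (κ' * (u * g t).re)) := by
        refine lintegral_finsetSum _ fun u _ => ?_
        exact (Real.measurable_exp.comp ((Complex.measurable_re.comp
          (hg.const_mul u)).const_mul κ')).ennreal_ofReal
    _ ≤ ∑ _u ∈ U, ENNReal.ofReal (max 0 (Cf (κ' * r))) := by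
        refine Finset.sum_le_sum fun u hu => ?_
        simp_rw [e1 u hu]
        have hn : ‖(κ' : ℂ) * u‖ = κ' := by
          rw [norm_mul, hU u hu, mul_one, Complex.norm_real, Real.norm_eq_abs, abs_of_nonneg hκ0]
        have := h (κ' * u) (by rw [hn]; exact hκ'r) τ
        rw [hn] at this
        exact this.trans (ENNReal.ofReal_le_ofReal (le_max_right _ _))
    _ = _ := by
        rw [Finset.sum_const, nsmul_eq_mul, ENNReal.ofReal_mul (by positivity),
          ENNReal.ofReal_natCast]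

section
variable {ι : Type} [Fintype ι] {r : ι → ℕ}

/-- exponential moments -/
def EM (r : ι → ℕ) (g : ι → ℝ → ℂ) : Prop := ∀ i (κ : ℝ), 0 ≤ κ → κ * r i < 1 →
  ∃ C : ℝ, 0 ≤ C ∧ ∀ τ : ℝ, ∫⁻ t in Set.Icc τ (τ + 1),
      ENNReal.ofReal (Real.exp (κ * ‖g i t‖)) ≤ ENNReal.ofReal C

/-- joint exponential moments -/
theorem exp_joint {g : ι → ℝ → ℂ} (hg : ∀ i, Measurable (g i)) (he : EM r g) {κ : ι → ℝ}
    (h0 : ∀ i, 0 ≤ κ i) (h1 : ∑ i, κ i * r i < 1) : ∃ C : ℝ, 0 ≤ C ∧ ∀ τ : ℝ,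
      ∫⁻ t in Set.Icc τ (τ + 1), ENNReal.ofReal (Real.exp (∑ i, κ i * ‖g i t‖)) ≤
        ENNReal.ofReal C := by
  rcases isEmpty_or_nonempty ι with hι | hι
  · refine ⟨1, zero_le_one, fun τ => ?_⟩
    simp
  set σ := ∑ i, κ i * r i with hσ
  set m : ℝ := ((Fintype.card ι : ℕ) : ℝ) with hm
  have hm0 : 0 < m := by
    rw [hm]
    exact_mod_cast Fintype.card_pos
  set l : ι → ℝ := fun i => κ i * r i + (1 - σ) / m with hl
  have hl0 : ∀ i, 0 < l i := fun i => by
    have h2 : 0 ≤ κ i * r i := mul_nonneg (h0 i) (Nat.cast_nonneg _)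
    have h3 : 0 < (1 - σ) / m := div_pos (by linarith) hm0
    simp only [hl]
    linarith
  have hlsum : ∑ i, l i = 1 := by
    simp only [hl]
    rw [Finset.sum_add_distrib, ← hσ, Finset.sum_const, Finset.card_univ, nsmul_eq_mul, ← hm]
    field_simp
    ring
  have hq : ∀ i, κ i / l i * r i < 1 := fun i => by
    rw [div_mul_eq_mul_div, div_lt_one (hl0 i)]
    have h3 : 0 < (1 - σ) / m := div_pos (by linarith) hm0
    simp only [hl]
    linarith
  have hq0 : ∀ i, 0 ≤ κ i / l i := fun i => div_nonneg (h0 i) (hl0 i).le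
  choose C hC0 hC using fun i => he i (κ i / l i) (hq0 i) (hq i)
  refine ⟨∑ i, C i, Finset.sum_nonneg fun i _ => hC0 i, fun τ => ?_⟩
  have hcv : ∀ t, Real.exp (∑ i, κ i * ‖g i t‖) ≤ ∑ i, Real.exp (κ i / l i * ‖g i t‖) := by
    intro t
    have h2 := convexOn_exp.map_sum_le (t := Finset.univ) (w := l)
      (p := fun i => κ i / l i * ‖g i t‖) (fun i _ => (hl0 i).le) hlsum (fun i _ => trivial)
    simp only [smul_eq_mul] at h2
    have e : ∀ i, l i * (κ i / l i * ‖g i t‖) = κ i * ‖g i t‖ := fun i => by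
      have := (hl0 i).ne'
      field_simp
    simp_rw [e] at h2
    refine h2.trans (Finset.sum_le_sum fun i _ => ?_)
    refine mul_le_of_le_one_left (Real.exp_pos _).le ?_
    rw [← hlsum]
    exact Finset.single_le_sum (f := l) (fun j _ => (hl0 j).le) (Finset.mem_univ i)
  calc ∫⁻ t in Set.Icc τ (τ + 1), ENNReal.ofReal (Real.exp (∑ i, κ i * ‖g i t‖))
      ≤ ∫⁻ t in Set.Icc τ (τ + 1), ∑ i, ENNReal.ofReal (Real.exp (κ i / l i * ‖g i t‖)) := by
        refine lintegral_mono fun t => ?_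
        rw [← ENNReal.ofReal_sum_of_nonneg fun _ _ => (Real.exp_pos _).le]
        exact ENNReal.ofReal_le_ofReal (hcv t)
    _ = ∑ i, ∫⁻ t in Set.Icc τ (τ + 1), ENNReal.ofReal (Real.exp (κ i / l i * ‖g i t‖)) := by
        refine lintegral_finsetSum _ fun i _ => ?_
        exact (Real.measurable_exp.comp ((hg i).norm.const_mul _)).ennreal_ofReal
    _ ≤ ∑ i, ENNReal.ofReal (C i) := Finset.sum_le_sum fun i _ => hC i τ
    _ = _ := (ENNReal.ofReal_sum_of_nonneg fun i _ => hC0 i).symm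

/-- the sum of the absolute values -/
noncomputable def nn (y : ι → ℂ) : ℝ := ∑ i, ‖y i‖

/-- a cutoff function -/
noncomputable def chi (K : ℝ) (y : ι → ℂ) : ℝ := max 0 (min 1 (K + 1 - nn y))

theorem nn_nonneg (y : ι → ℂ) : 0 ≤ nn y := Finset.sum_nonneg fun i _ => norm_nonneg _

theorem cont_nn : Continuous (nn : (ι → ℂ) → ℝ) := by unfold nn; fun_prop

theorem cont_chi (K : ℝ) : Continuous (chi K : (ι → ℂ) → ℝ) := by
  unfold chi
  exact continuous_const.max (continuous_const.min (continuous_const.sub cont_nn))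

theorem chi_nonneg (K : ℝ) (y : ι → ℂ) : 0 ≤ chi K y := le_max_left _ _

theorem chi_le (K : ℝ) (y : ι → ℂ) : chi K y ≤ 1 := max_le zero_le_one (min_le_left _ _)

theorem chi_one {K : ℝ} {y : ι → ℂ} (h : nn y ≤ K) : chi K y = 1 := by
  unfold chi
  rw [min_eq_left (by linarith), max_eq_right zero_le_one]

theorem chi_supp (K : ℝ) {E : Type} [NormedAddCommGroup E] [NormedSpace ℝ E] (f : (ι → ℂ) → E) :
    HasCompactSupport (fun y => chi K y • f y) := by
  refine HasCompactSupport.intro (K := Metric.closedBall (0 : ι → ℂ) (|K| + 1))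
    (isCompact_closedBall _ _) fun y hy => ?_
  have h1 : |K| + 1 < ‖y‖ := by
    by_contra h
    push Not at h
    exact hy (by simpa using h)
  have h2 : ‖y‖ ≤ nn y := by
    rw [pi_norm_le_iff_of_nonneg (nn_nonneg y)]
    intro i
    exact Finset.single_le_sum (f := fun i => ‖y i‖) (fun _ _ => norm_nonneg _) (Finset.mem_univ i)
  have h3 : chi K y = 0 := by
    unfold chi
    refine max_eq_left ((min_le_right _ _).trans ?_)
    have := le_abs_self K
    linarith
  rw [h3, zero_smul]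

theorem cutoff {α : Type} [MeasurableSpace α] (μ : Measure α) {U : α → ι → ℂ}
    (hU : ∀ i, Measurable fun a => U a i) {Φ : (ι → ℂ) → ℂ} (hΦ : Continuous Φ) {κ : ι → ℝ} {A δ : ℝ}
    (hδ : 0 < δ) (hA : 0 ≤ A) (hb : ∀ y, ‖Φ y‖ ≤ A * Real.exp (∑ i, κ i * ‖y i‖)) {B : ℝ} (hB0 : 0 ≤ B)
    (hB : ∫⁻ a, ENNReal.ofReal (Real.exp (∑ i, (κ i + δ) * ‖U a i‖)) ∂μ ≤ ENNReal.ofReal B) :
    Integrable (fun a => Φ (U a)) μ ∧ ∀ K : ℝ,
      ‖∫ a, Φ (U a) ∂μ - ∫ a, chi K (U a) • Φ (U a) ∂μ‖ ≤ A * Real.exp (-(δ * K)) * B := by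
  have hU' : Measurable U := measurable_pi_lambda _ hU
  have hE : Measurable fun a => Real.exp (∑ i, (κ i + δ) * ‖U a i‖) :=
    Real.measurable_exp.comp (Finset.measurable_sum _ fun i _ => (hU i).norm.const_mul _)
  have iE : Integrable (fun a => Real.exp (∑ i, (κ i + δ) * ‖U a i‖)) μ := by
    refine ⟨hE.aestronglyMeasurable, ?_⟩
    rw [hasFiniteIntegral_iff_ofReal (Eventually.of_forall fun a => (Real.exp_pos _).le)]
    exact hB.trans_lt ENNReal.ofReal_lt_top
  have hEB : ∫ a, Real.exp (∑ i, (κ i + δ) * ‖U a i‖) ∂μ ≤ B := by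
    rw [integral_eq_lintegral_of_nonneg_ae (Eventually.of_forall fun a => (Real.exp_pos _).le)
      hE.aestronglyMeasurable]
    exact ENNReal.toReal_le_of_le_ofReal hB0 hB
  have hsplit : ∀ y : ι → ℂ, Real.exp (∑ i, κ i * ‖y i‖) =
      Real.exp (-(δ * nn y)) * Real.exp (∑ i, (κ i + δ) * ‖y i‖) := by
    intro y
    rw [← Real.exp_add]
    congr 1
    unfold nn
    simp_rw [add_mul]
    rw [Finset.sum_add_distrib, ← Finset.mul_sum]
    ring
  have h1 : ∀ a, ‖Φ (U a)‖ ≤ A * Real.exp (∑ i, (κ i + δ) * ‖U a i‖) := fun a => by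
    refine (hb _).trans (mul_le_mul_of_nonneg_left ?_ hA)
    rw [hsplit]
    refine mul_le_of_le_one_left (Real.exp_pos _).le (Real.exp_le_one_iff.2 ?_)
    have := mul_nonneg hδ.le (nn_nonneg (U a))
    linarith
  have i1 : Integrable (fun a => Φ (U a)) μ :=
    Integrable.mono' (iE.const_mul A) (hΦ.measurable.comp hU').aestronglyMeasurable
      (Eventually.of_forall h1)
  refine ⟨i1, fun K => ?_⟩
  have hm2 : Measurable fun a => chi K (U a) • Φ (U a) :=
    (((cont_chi K).smul hΦ).measurable).comp hU'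
  have i2 : Integrable (fun a => chi K (U a) • Φ (U a)) μ := by
    refine Integrable.mono' i1.norm hm2.aestronglyMeasurable (Eventually.of_forall fun a => ?_)
    rw [norm_smul, Real.norm_eq_abs, abs_of_nonneg (chi_nonneg _ _)]
    exact mul_le_of_le_one_left (norm_nonneg _) (chi_le _ _)
  rw [← integral_sub i1 i2]
  refine (norm_integral_le_integral_norm _).trans ?_
  have h2 : ∀ a, ‖Φ (U a) - chi K (U a) • Φ (U a)‖ ≤
      A * Real.exp (-(δ * K)) * Real.exp (∑ i, (κ i + δ) * ‖U a i‖) := by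
    intro a
    rcases le_or_gt (nn (U a)) K with h | h
    · rw [chi_one h, one_smul, sub_self, norm_zero]
      positivity
    · have e : Φ (U a) - chi K (U a) • Φ (U a) = (1 - chi K (U a)) • Φ (U a) := by
        rw [sub_smul, one_smul]
      rw [e, norm_smul, Real.norm_eq_abs, abs_of_nonneg (by linarith [chi_le K (U a)])]
      have h3 : (1 - chi K (U a)) * ‖Φ (U a)‖ ≤ ‖Φ (U a)‖ :=
        mul_le_of_le_one_left (norm_nonneg _) (by linarith [chi_nonneg K (U a)])
      refine h3.trans ((hb _).trans ?_)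
      rw [hsplit, mul_assoc]
      refine mul_le_mul_of_nonneg_left (mul_le_mul_of_nonneg_right ?_ (Real.exp_pos _).le) hA
      rw [Real.exp_le_exp]
      nlinarith
  refine (integral_mono (i1.sub i2).norm (iE.const_mul _) h2).trans ?_
  rw [integral_const_mul]
  exact mul_le_mul_of_nonneg_left hEB (by positivity)

variable {x : ∀ i, ℕ → Fin (r i) → ℂ} {g : ι → ℝ → ℂ} {X : ι → (ℕ → UnitAddCircle) → ℂ}

/-- exponential moments of the random variables -/
theorem exp_X (H : Bd x g X) (he : EM r g) {κ : ι → ℝ} (h0 : ∀ i, 0 ≤ κ i)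
    (h1 : ∑ i, κ i * r i < 1) : ∃ C : ℝ, 0 ≤ C ∧
      (∀ a T : ℝ, 1 ≤ T → ∫⁻ t in Set.Ioc a (a + T),
        ENNReal.ofReal (Real.exp (∑ i, κ i * ‖g i t‖)) ≤ ENNReal.ofReal (T * C)) ∧
      ∫⁻ θ, ENNReal.ofReal (Real.exp (∑ i, κ i * ‖X i θ‖)) ∂PT ≤ ENNReal.ofReal C := by
  obtain ⟨C, hC0, hC⟩ := exp_joint H.gm he h0 h1
  have hcov : ∀ a T : ℝ, 1 ≤ T → ∫⁻ t in Set.Ioc a (a + T),
        ENNReal.ofReal (Real.exp (∑ i, κ i * ‖g i t‖)) ≤ ENNReal.ofReal (T * (2 * C)) := by
    intro a T hT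
    refine (cover hC a hT).trans (le_of_eq ?_)
    rw [← ENNReal.ofReal_mul (by positivity)]
    congr 1
    ring
  refine ⟨2 * C, by positivity, hcov, ?_⟩
  set E : (ι → ℂ) → ℝ := fun y => Real.exp (∑ i, κ i * ‖y i‖) with hE
  have hEc : Continuous E := by simp only [hE]; fun_prop
  have hXm : Measurable fun θ i => X i θ := measurable_pi_lambda _ H.Xm
  have hgm : Measurable fun t i => g i t := measurable_pi_lambda _ H.gm
  have hK : ∀ K : ℕ, ∫⁻ θ, ENNReal.ofReal (chi K (fun i => X i θ) * E (fun i => X i θ)) ∂PT ≤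
      ENNReal.ofReal (2 * C) := by
    intro K
    set Ψ : (ι → ℂ) → ℂ := fun y => chi K y • ((E y : ℝ) : ℂ) with hΨ
    have hΨc : Continuous Ψ := (cont_chi _).smul (Complex.continuous_ofReal.comp hEc)
    have hs : HasCompactSupport Ψ := chi_supp K _
    have hΨr : ∀ y, Ψ y = ((chi K y * E y : ℝ) : ℂ) := fun y => by
      simp [hΨ, Complex.real_smul]
    obtain ⟨M, hM⟩ := hs.exists_bound_of_continuous hΨc
    have h2 := law0 H hΨc hs
    have hnn : ∀ y, 0 ≤ chi K y * E y := fun y => mul_nonneg (chi_nonneg _ _) (Real.exp_pos _).le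
    have i1 : Integrable (fun θ => chi K (fun i => X i θ) * E (fun i => X i θ)) PT := by
      refine Integrable.of_bound (((cont_chi (K : ℝ)).mul hEc).measurable.comp hXm).aestronglyMeasurable
        M (Eventually.of_forall fun θ => ?_)
      have := hM (fun i => X i θ)
      rw [hΨr, Complex.norm_real] at this
      exact this
    rw [← ofReal_integral_eq_lintegral_ofReal i1 (Eventually.of_forall fun θ => hnn _)]
    refine ENNReal.ofReal_le_ofReal ?_
    set I := ∫ θ, chi K (fun i => X i θ) * E (fun i => X i θ) ∂PT with hI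
    have e1 : ∫ θ, Ψ (fun i => X i θ) ∂PT = ((I : ℝ) : ℂ) := by
      simp_rw [hΨr]
      exact integral_complex_ofReal
    rw [e1] at h2
    by_contra hlt
    push Not at hlt
    obtain ⟨T₀, hT₀, h3⟩ := h2 ((I - 2 * C) / 2) (by linarith)
    set T := max T₀ 1 with hT
    have hT1 : 1 ≤ T := le_max_right _ _
    have hT0 : 0 < T := by linarith
    have h4 := h3 T (le_max_left _ _) 0
    have e2 : av (fun t => Ψ (fun i => g i t)) 0 T =
        ((T⁻¹ * ∫ t in (0 : ℝ)..(0 + T), chi K (fun i => g i t) * E (fun i => g i t) : ℝ) : ℂ) := by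
      unfold av
      simp_rw [hΨr]
      rw [intervalIntegral.integral_ofReal]
      push_cast
      rfl
    rw [e2, ← Complex.ofReal_sub, Complex.norm_real, Real.norm_eq_abs] at h4
    have h5 : ∫ t in (0 : ℝ)..(0 + T), chi K (fun i => g i t) * E (fun i => g i t) ≤ T * (2 * C) := by
      rw [intervalIntegral.integral_of_le (by linarith),
        integral_eq_lintegral_of_nonneg_ae (Eventually.of_forall fun t => hnn _)
        (((cont_chi (K : ℝ)).mul hEc).measurable.comp hgm).aestronglyMeasurable]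
      refine ENNReal.toReal_le_of_le_ofReal (by positivity) (le_trans ?_ (hcov 0 T hT1))
      refine lintegral_mono fun t => ENNReal.ofReal_le_ofReal ?_
      exact mul_le_of_le_one_left (Real.exp_pos _).le (chi_le _ _)
    have h6 : T⁻¹ * ∫ t in (0 : ℝ)..(0 + T), chi K (fun i => g i t) * E (fun i => g i t) ≤ 2 * C := by
      calc _ ≤ T⁻¹ * (T * (2 * C)) := mul_le_mul_of_nonneg_left h5 (by positivity)
        _ = _ := by field_simp
    have h7 := (abs_le.1 h4).1
    linarith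
  have hlim : ∀ θ, Tendsto (fun K : ℕ => chi K (fun i => X i θ) * E (fun i => X i θ)) atTop
      (𝓝 (E (fun i => X i θ))) := by
    intro θ
    refine tendsto_const_nhds.congr' ?_
    filter_upwards [eventually_ge_atTop ⌈nn (fun i => X i θ)⌉₊] with K hK
    rw [chi_one, one_mul]
    exact (Nat.le_ceil _).trans (by exact_mod_cast hK)
  have h2 : ∫⁻ θ, ENNReal.ofReal (E (fun i => X i θ)) ∂PT =
      ∫⁻ θ, liminf (fun K : ℕ => ENNReal.ofReal
        (chi K (fun i => X i θ) * E (fun i => X i θ))) atTop ∂PT := by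
    refine lintegral_congr fun θ => ?_
    exact ((ENNReal.tendsto_ofReal (hlim θ)).liminf_eq).symm
  change ∫⁻ θ, ENNReal.ofReal (E (fun i => X i θ)) ∂PT ≤ _
  rw [h2]
  have hme : ∀ K : ℕ, Measurable fun θ => ENNReal.ofReal
      (chi (K : ℝ) (fun i => X i θ) * E (fun i => X i θ)) := fun K =>
    (((cont_chi (K : ℝ)).mul hEc).measurable.comp hXm).ennreal_ofReal
  refine (lintegral_liminf_le hme).trans ?_
  refine (liminf_le_liminf (v := fun _ => ENNReal.ofReal (2 * C)) (Eventually.of_forall hK)).trans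
    (le_of_eq ?_)
  exact liminf_const _

/-- **The limit law**, for functions of exponential growth. -/
theorem law1 (H : Bd x g X) (he : EM r g) {κ : ι → ℝ} (h0 : ∀ i, 0 ≤ κ i)
    (h1 : ∑ i, κ i * r i < 1) {A : ℝ} {Φ : (ι → ℂ) → ℂ} (hΦ : Continuous Φ)
    (hb : ∀ y, ‖Φ y‖ ≤ A * Real.exp (∑ i, κ i * ‖y i‖)) :
    Integrable (fun θ => Φ (fun i => X i θ)) PT ∧
      Mean (fun t => Φ (fun i => g i t)) (∫ θ, Φ (fun i => X i θ) ∂PT) := by
  have hA : 0 ≤ A := by
    have := hb 0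
    simp at this
    exact (norm_nonneg _).trans this
  set σ := ∑ i, κ i * r i with hσ
  set R : ℝ := ∑ i, (r i : ℝ) with hR
  have hR0 : 0 ≤ R := Finset.sum_nonneg fun i _ => Nat.cast_nonneg _
  set δ := (1 - σ) / (2 * (R + 1)) with hδ
  have hδ0 : 0 < δ := div_pos (by linarith) (by positivity)
  have hsum : ∑ i, (κ i + δ) * r i < 1 := by
    simp_rw [add_mul]
    rw [Finset.sum_add_distrib, ← Finset.mul_sum, ← hσ, ← hR]
    have e : δ * (2 * (R + 1)) = 1 - σ := by rw [hδ]; field_simp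
    nlinarith
  obtain ⟨C, hC0, hCg, hCX⟩ := exp_X H he (κ := fun i => κ i + δ)
    (fun i => add_nonneg (h0 i) hδ0.le) hsum
  obtain ⟨iX, hX⟩ := cutoff PT (U := fun θ i => X i θ) H.Xm hΦ hδ0 hA hb hC0 hCX
  refine ⟨iX, fun η hη => ?_⟩
  obtain ⟨K, hK⟩ : ∃ K : ℕ, A * Real.exp (-(δ * K)) * C ≤ η / 4 := by
    have h2 : Tendsto (fun K : ℕ => A * Real.exp (-(δ * K)) * C) atTop (𝓝 0) := by
      have h3 : Tendsto (fun K : ℕ => Real.exp (-(δ * K))) atTop (𝓝 0) :=
        Real.tendsto_exp_neg_atTop_nhds_zero.comp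
          (tendsto_natCast_atTop_atTop.const_mul_atTop hδ0)
      have := (h3.const_mul A).mul_const C
      rwa [mul_zero, zero_mul] at this
    have h3 : ∀ᶠ K : ℕ in atTop, A * Real.exp (-(δ * K)) * C < η / 4 :=
      h2.eventually (Iio_mem_nhds (by positivity))
    obtain ⟨K, hK⟩ := h3.exists
    exact ⟨K, hK.le⟩
  have hs : HasCompactSupport (fun y => chi K y • Φ y) := chi_supp K Φ
  have hc : Continuous (fun y => chi K y • Φ y) := (cont_chi _).smul hΦ
  obtain ⟨T₀, hT₀, h2⟩ := law0 H hc hs (η / 4) (by positivity)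
  refine ⟨max T₀ 1, by positivity, fun T hT a => ?_⟩
  have hT1 : 1 ≤ T := (le_max_right _ _).trans hT
  have hT0 : 0 < T := by linarith
  obtain ⟨-, hG⟩ := cutoff (volume.restrict (Set.Ioc a (a + T))) (U := fun t i => g i t) H.gm hΦ hδ0
    hA hb (B := T * C) (by positivity) (hCg a T hT1)
  have h3 : ‖av (fun t => Φ (fun i => g i t)) a T -
      av (fun t => chi K (fun i => g i t) • Φ (fun i => g i t)) a T‖ ≤ η / 4 := by
    unfold av
    rw [intervalIntegral.integral_of_le (by linarith), intervalIntegral.integral_of_le (by linarith),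
      ← mul_sub, norm_mul, norm_inv, Complex.norm_real, Real.norm_eq_abs, abs_of_pos hT0]
    refine (mul_le_mul_of_nonneg_left (hG K) (by positivity)).trans ?_
    calc T⁻¹ * (A * Real.exp (-(δ * K)) * (T * C)) = A * Real.exp (-(δ * K)) * C := by field_simp
      _ ≤ _ := hK
  have h4 := h2 T ((le_max_left _ _).trans hT) a
  have h5 := (hX K).trans hK
  have e : av (fun t => Φ (fun i => g i t)) a T - ∫ θ, Φ (fun i => X i θ) ∂PT =
      (av (fun t => Φ (fun i => g i t)) a T -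
        av (fun t => chi K (fun i => g i t) • Φ (fun i => g i t)) a T) +
      (av (fun t => chi K (fun i => g i t) • Φ (fun i => g i t)) a T -
        ∫ θ, chi K (fun i => X i θ) • Φ (fun i => X i θ) ∂PT) -
      (∫ θ, Φ (fun i => X i θ) ∂PT - ∫ θ, chi K (fun i => X i θ) • Φ (fun i => X i θ) ∂PT) := by
    ring
  rw [e]
  refine (norm_sub_le _ _).trans ?_
  have := norm_add_le (av (fun t => Φ (fun i => g i t)) a T -
        av (fun t => chi K (fun i => g i t) • Φ (fun i => g i t)) a T)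
      (av (fun t => chi K (fun i => g i t) • Φ (fun i => g i t)) a T -
        ∫ θ, chi K (fun i => X i θ) • Φ (fun i => X i θ) ∂PT)
  linarith

end

end Pool.Agent.X280.ED
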