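import Pool.Agent.X280.ED.Moments
import Pool.Agent.X280.EB.Power

/-! The mean values of the powers on the edge line. -/

set_option autoImplicit false

namespace Pool.Agent.X280.ED

open Finset MeasureTheory Filter Topology Pool.Agent.X280.EB
open scoped ENNReal

theorem circle_mean {h : ℂ → ℂ} (hh : DiffContOnCl ℂ h (Metric.ball 0 1)) :
    ∫ x, h (ee x) ∂hU = h 0 := by
  have h1 : ∫ x, h (ee x) ∂hU = ∫ x : UnitAddCircle, h (ee x) := by
    rw [AddCircle.integral_haarAddCircle]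
    simp
  have h2 := UnitAddCircle.intervalIntegral_preimage 0 (fun x => h (ee x))
  rw [h1, ← h2]
  have h3 := DiffContOnCl.circleAverage (f := h) (c := 0) (R := 1) (by simpa using hh)
  rw [← h3, Real.circleAverage_def]
  have h4 := intervalIntegral.integral_comp_mul_left (a := 0) (b := 1)
    (fun θ => h (circleMap 0 1 θ)) (show 2 * Real.pi ≠ 0 by positivity)
  rw [mul_zero, mul_one] at h4
  rw [← h4, zero_add]
  refine intervalIntegral.integral_congr fun a _ => ?_
  have : ee ((a : ℝ) : UnitAddCircle) = circleMap 0 1 (2 * Real.pi * a) := by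
    unfold ee circleMap
    rw [AddCircle.toCircle_apply_mk, Circle.coe_exp]
    simp
  simp only [this]

section
variable {r : ℕ} {x : ℕ → Fin r → ℂ}

theorem local_diff (hx : ∀ p : ℕ, p.Prime → ∀ j, ‖x p j‖ ≤ 1) (c : ℂ) {p : ℕ} (hp : p.Prime) :
    DiffContOnCl ℂ (fun u => Complex.exp (c * ∑ j, Complex.log (1 - x p j * (p : ℂ)⁻¹ * u)⁻¹))
      (Metric.ball 0 1) := by
  have hre : ∀ (j : Fin r) (u : ℂ), ‖u‖ ≤ 1 → 0 < (1 - x p j * (p : ℂ)⁻¹ * u).re := by
    intro j u hu
    have hn : ‖x p j * (p : ℂ)⁻¹ * u‖ ≤ 1 / 2 := by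
      rw [norm_mul, norm_mul, norm_inv, Complex.norm_natCast]
      have hp2 : (2 : ℝ) ≤ p := by exact_mod_cast hp.two_le
      have h1 : (p : ℝ)⁻¹ ≤ 1 / 2 := by
        rw [one_div]
        exact inv_anti₀ (by norm_num) hp2
      have h2 : ‖x p j‖ * (p : ℝ)⁻¹ ≤ 1 / 2 :=
        (mul_le_of_le_one_left (by positivity) (hx p hp j)).trans h1
      exact (mul_le_of_le_one_right (by positivity) hu).trans h2
    have := Complex.abs_re_le_norm (x p j * (p : ℂ)⁻¹ * u)
    have h2 := (abs_le.1 this).2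
    simp only [Complex.sub_re, Complex.one_re]
    linarith
  have hne : ∀ (j : Fin r) (u : ℂ), ‖u‖ ≤ 1 → (1 - x p j * (p : ℂ)⁻¹ * u) ≠ 0 := fun j u hu h => by
    have := hre j u hu
    rw [h] at this
    simp at this
  have hsl : ∀ (j : Fin r) (u : ℂ), ‖u‖ ≤ 1 → (1 - x p j * (p : ℂ)⁻¹ * u)⁻¹ ∈ Complex.slitPlane := by
    intro j u hu
    refine Or.inl ?_
    rw [Complex.inv_re]
    exact div_pos (hre j u hu) (Complex.normSq_pos.2 (hne j u hu))
  have hd : ∀ u : ℂ, ‖u‖ ≤ 1 → DifferentiableAt ℂ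
      (fun u => Complex.exp (c * ∑ j, Complex.log (1 - x p j * (p : ℂ)⁻¹ * u)⁻¹)) u := by
    intro u hu
    refine DifferentiableAt.cexp (DifferentiableAt.const_mul ?_ c)
    refine DifferentiableAt.fun_sum fun j _ => ?_
    refine DifferentiableAt.clog ?_ (hsl j u hu)
    refine DifferentiableAt.inv ?_ (hne j u hu)
    exact (differentiableAt_const _).sub ((differentiableAt_const _).mul differentiableAt_id)
  refine DifferentiableOn.diffContOnCl fun u hu => ?_
  refine (hd u ?_).differentiableWithinAt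
  rw [closure_ball (0 : ℂ) one_ne_zero] at hu
  simpa using hu

theorem YY_mean (hx : ∀ p : ℕ, p.Prime → ∀ j, ‖x p j‖ ≤ 1) (c : ℂ) (z : ℕ) :
    ∫ θ, Complex.exp (c * YY z x θ) ∂PT = 1 := by
  set F : UnitAddTorus (pz z) → ℂ := fun y => Complex.exp (c * YY z x (ext0 z y)) with hF
  have hFc : Continuous F :=
    Complex.continuous_exp.comp (continuous_const.mul ((cont_YY hx z).comp (cont_ext0 z)))
  have h1 : ∫ θ, Complex.exp (c * YY z x θ) ∂PT = ∫ y, F y ∂(Measure.pi fun _ : pz z => hU) := by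
    unfold PT
    rw [← integral_restrict_infinitePi (μ := fun _ : ℕ => hU) (s := pz z) hFc.aestronglyMeasurable]
    refine integral_congr_ae (Eventually.of_forall fun θ => ?_)
    simp only [hF]
    rw [YY_ext z z le_rfl θ]
  have h2 : ∀ y, F y = ∏ p : pz z, Complex.exp (c * ∑ j,
      Complex.log (1 - x p j * ((p : ℕ) : ℂ)⁻¹ * ee (y p))⁻¹) := by
    intro y
    simp only [hF]
    rw [← Complex.exp_sum, ← Finset.mul_sum]
    congr 2
    unfold YY LE
    rw [← Finset.sum_coe_sort]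
    refine Finset.sum_congr rfl fun p _ => Finset.sum_congr rfl fun j _ => ?_
    have e : ext0 z y p = y p := by
      unfold ext0
      rw [dif_pos p.2]
    simp only [e]
  rw [h1]
  simp_rw [h2]
  rw [integral_fintype_prod_eq_prod (f := fun (p : pz z) (u : UnitAddCircle) =>
    Complex.exp (c * ∑ j, Complex.log (1 - x p j * ((p : ℕ) : ℂ)⁻¹ * ee u)⁻¹))]
  refine Finset.prod_eq_one fun p _ => ?_
  rw [circle_mean (local_diff hx c (mem_pz.1 p.2).2)]
  simp

theorem TR_mean (hx : ∀ p : ℕ, p.Prime → ∀ j, ‖x p j‖ ≤ 1) (c : ℂ) (z : ℕ) {ε : ℝ} (hε : 0 ≤ ε) :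
    Mean (fun t => Complex.exp (c * TR z x ε t)) 1 := by
  set x' : ℕ → Fin r → ℂ := fun p j => x p j * (((p : ℝ) ^ (-ε) : ℝ) : ℂ) with hx'
  have hx1 : ∀ p : ℕ, p.Prime → ∀ j, ‖x' p j‖ ≤ 1 := by
    intro p hp j
    have hp1 : (1 : ℝ) ≤ p := by exact_mod_cast hp.one_lt.le
    simp only [hx']
    rw [norm_mul, Complex.norm_real, Real.norm_eq_abs, abs_of_nonneg (by positivity)]
    have : (p : ℝ) ^ (-ε) ≤ 1 := Real.rpow_le_one_of_one_le_of_nonpos hp1 (by linarith)
    exact mul_le_one₀ (hx p hp j) (by positivity) this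
  have e : ∀ t, TR z x ε t = TR z x' 0 t := by
    intro t
    unfold TR zz
    refine Finset.sum_congr rfl fun p hp => Finset.sum_congr rfl fun j _ => ?_
    have hp0 : (0 : ℝ) < p := by exact_mod_cast (mem_pz.1 hp).2.pos
    simp only [hx']
    congr 4
    rw [mul_assoc, ← Complex.ofReal_mul, ← Real.rpow_add hp0]
    congr 3
    ring
  simp_rw [e]
  have h1 := mean_tr (ι := Unit) (r := fun _ => r) (x := fun _ => x') (fun _ => hx1) (fun _ => z)
    (Φ := fun y => Complex.exp (c * y ())) (by fun_prop)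
  rw [YY_mean hx1] at h1
  exact h1

/-- a uniform bound for the tails at a positive distance -/
theorem tail_unif (hx : ∀ p : ℕ, p.Prime → ∀ j, ‖x p j‖ ≤ 1) {ε : ℝ} (hε : 0 < ε) :
    ∃ b : ℕ → ℝ, Tendsto b atTop (𝓝 0) ∧ ∀ z t, ‖LG x ε t - TR z x ε t‖ ≤ b z := by
  set w : ℕ → ℝ := fun n => (n : ℝ) ^ (-(1 + ε)) with hw
  have hw0 : ∀ n, 0 ≤ w n := fun n => by simp only [hw]; positivity
  have hws : Summable w := Real.summable_nat_rpow.2 (by linarith)
  refine ⟨fun z => r * (∑' n, hz z n * w n) + r * T2 z, ?_, fun z t => ?_⟩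
  · have := ((hz_tsum hws hw0).const_mul (r : ℝ)).add (T2_tendsto.const_mul (r : ℝ))
    simpa using this
  · rw [LG_cut hx hε, LG_eq (cut_le hx z) hε]
    refine (norm_add_le _ _).trans (add_le_add ?_ (RR_cut hx hε.le z t))
    have hS : Summable fun n => hz z n * w n :=
      Summable.of_nonneg_of_le (fun m => mul_nonneg (hz_nonneg z m) (hw0 m))
        (fun m => mul_le_of_le_one_left (hw0 m) (hz_le z m)) hws
    have hSp : Summable fun p : Nat.Primes => hz z p * w p :=
      hS.comp_injective (fun a b h => Subtype.ext h)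
    unfold PP
    refine (tsum_of_norm_bounded (hSp.mul_left (r : ℝ)).hasSum fun p => ?_).trans ?_
    · rw [norm_mul, norm_mul, norm_ch, mul_one, Complex.norm_real, Real.norm_eq_abs,
        abs_of_nonneg (by positivity)]
      by_cases hp : (p : ℕ) ≤ z
      · have : tr (cut z x) p = 0 := by
          unfold tr cut
          simp [hp]
        rw [this, norm_zero, zero_mul]
        exact mul_nonneg (Nat.cast_nonneg r) (mul_nonneg (hz_nonneg z p) (hw0 p))
      · have e1 : hz z p = 1 := by unfold hz; rw [if_pos (by omega)]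
        rw [e1, one_mul]
        exact mul_le_mul_of_nonneg_right (norm_tr (cut_le hx z) p.2) (hw0 p)
    · rw [tsum_mul_left]
      refine mul_le_mul_of_nonneg_left ?_ (Nat.cast_nonneg r)
      exact Summable.tsum_subtype_le (f := fun m : ℕ => hz z m * w m) {p : ℕ | p.Prime}
        (fun m => mul_nonneg (hz_nonneg z m) (hw0 m)) hS

/-- a uniform approximation of continuous functions -/
theorem Mean.unif {f : ℝ → ℂ} (hf : Continuous f) {c : ℂ}
    (h : ∀ η : ℝ, 0 < η → ∃ F : ℝ → ℂ, Continuous F ∧ Mean F c ∧ ∀ t, ‖f t - F t‖ ≤ η) : Mean f c := by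
  intro η hη
  obtain ⟨F, hF, h1, h2⟩ := h (η / 2) (by positivity)
  obtain ⟨T₀, hT₀, h3⟩ := h1 (η / 2) (by positivity)
  refine ⟨T₀, hT₀, fun T hT a => ?_⟩
  have h4 := av_add (f := fun t => f t - F t) (g := F) (hf.sub hF) hF a T
  simp only [sub_add_cancel] at h4
  have h5 := av_le (f := fun t => f t - F t) h2 a (hT₀.trans_le hT)
  have e : av f a T - c = av (fun t => f t - F t) a T + (av F a T - c) := by rw [h4]; ring
  rw [e]
  refine (norm_add_le _ _).trans ?_
  have := h3 T hT a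
  linarith

theorem exp_sub_le {a b : ℂ} {B : ℝ} (ha : ‖a‖ ≤ B) (hab : ‖a - b‖ ≤ 1) :
    ‖Complex.exp a - Complex.exp b‖ ≤ Real.exp B * (2 * ‖a - b‖) := by
  have h1 : Complex.exp a - Complex.exp b = -(Complex.exp a * (Complex.exp (b - a) - 1)) := by
    rw [mul_sub, ← Complex.exp_add]
    ring_nf
  rw [h1, norm_neg, norm_mul]
  have h2 : ‖Complex.exp a‖ ≤ Real.exp B := by
    rw [Complex.norm_exp]
    exact Real.exp_le_exp.2 ((Complex.re_le_norm _).trans ha)
  have h3 : ‖Complex.exp (b - a) - 1‖ ≤ 2 * ‖b - a‖ :=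
    Complex.norm_exp_sub_one_le (by rw [norm_sub_rev]; exact hab)
  rw [norm_sub_rev b a] at h3
  exact mul_le_mul h2 h3 (norm_nonneg _) (Real.exp_pos _).le

theorem LG_bound (hx : ∀ p : ℕ, p.Prime → ∀ j, ‖x p j‖ ≤ 1) {ε : ℝ} (hε : 0 < ε) :
    ∃ B : ℝ, ∀ t, ‖LG x ε t‖ ≤ B := by
  obtain ⟨b, -, hb⟩ := tail_unif hx hε
  refine ⟨b 0, fun t => ?_⟩
  have h1 := hb 0 t
  have h2 : TR 0 x ε t = 0 := by
    unfold TR pz
    simp
  rwa [h2, sub_zero] at h1

theorem LG_mean (hx : ∀ p : ℕ, p.Prime → ∀ j, ‖x p j‖ ≤ 1) (c : ℂ) {ε : ℝ} (hε : 0 < ε) :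
    Mean (fun t => Complex.exp (c * LG x ε t)) 1 := by
  refine Mean.unif (Complex.continuous_exp.comp (continuous_const.mul (LG_cont hx hε))) fun η hη => ?_
  obtain ⟨b, hb0, hb⟩ := tail_unif hx hε
  obtain ⟨B, hB⟩ := LG_bound hx hε
  have h1 : ∀ᶠ z in atTop, ‖c‖ * b z < min 1 (η / (2 * Real.exp (‖c‖ * B))) := by
    have h2 := hb0.const_mul ‖c‖
    rw [mul_zero] at h2
    exact h2.eventually (Iio_mem_nhds (lt_min one_pos (by positivity)))
  obtain ⟨z, hz⟩ := h1.exists
  refine ⟨fun t => Complex.exp (c * TR z x ε t),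
    Complex.continuous_exp.comp (continuous_const.mul (TR_cont hx z hε)), TR_mean hx c z hε.le,
    fun t => ?_⟩
  have h3 : ‖c * LG x ε t - c * TR z x ε t‖ ≤ ‖c‖ * b z := by
    rw [← mul_sub, norm_mul]
    exact mul_le_mul_of_nonneg_left (hb z t) (norm_nonneg _)
  have h4 := h3.trans hz.le
  have h5 : ‖c * LG x ε t‖ ≤ ‖c‖ * B := by
    rw [norm_mul]
    exact mul_le_mul_of_nonneg_left (hB t) (norm_nonneg _)
  refine (exp_sub_le h5 (h4.trans (min_le_left _ _))).trans ?_
  have h6 := h4.trans (min_le_right _ _)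
  rw [le_div_iff₀ (by positivity)] at h6
  have := Real.exp_pos (‖c‖ * B)
  nlinarith

/-- **The mean values of the powers on the edge line are one.** -/
theorem pow_mean (hx : ∀ p : ℕ, p.Prime → ∀ j, ‖x p j‖ ≤ 1) {g : ℝ → ℂ} (hg : Measurable g) {c : ℂ}
    {om : ℝ → ℝ} (hom : Tendsto om (𝓝[>] 0) (𝓝 0))
    (h : ∀ ε τ : ℝ, 0 < ε → ∫⁻ t in Set.Icc τ (τ + 1),
      ENNReal.ofReal ‖Complex.exp (c * LG x ε t) - Complex.exp (c * g t)‖ ≤ ENNReal.ofReal (om ε)) :
    Mean (fun t => Complex.exp (c * g t)) 1 := by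
  intro η hη
  obtain ⟨ε, hε, hε2⟩ : ∃ ε : ℝ, 0 < ε ∧ om ε ≤ η / 4 := by
    have h2 : ∀ᶠ ε in 𝓝[>] (0 : ℝ), om ε < η / 4 := hom.eventually (Iio_mem_nhds (by positivity))
    obtain ⟨ε, h3, h4⟩ := (h2.and self_mem_nhdsWithin).exists
    exact ⟨ε, h4, h3.le⟩
  obtain ⟨T₀, hT₀, h2⟩ := LG_mean hx c hε (η / 2) (by positivity)
  refine ⟨max T₀ 1, by positivity, fun T hT a => ?_⟩
  have hT1 : 1 ≤ T := (le_max_right _ _).trans hT
  have hT0 : 0 < T := by linarith
  have h3 := h2 T ((le_max_left _ _).trans hT) a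
  have hcL : Continuous fun t => Complex.exp (c * LG x ε t) :=
    Complex.continuous_exp.comp (continuous_const.mul (LG_cont hx hε))
  have hgm : Measurable fun t => Complex.exp (c * g t) :=
    Complex.measurable_exp.comp (hg.const_mul c)
  have i1 : IntegrableOn (fun t => Complex.exp (c * LG x ε t)) (Set.Ioc a (a + T)) :=
    (hcL.continuousOn.integrableOn_Icc).mono_set Set.Ioc_subset_Icc_self
  have hd : ∫⁻ t in Set.Ioc a (a + T),
      ENNReal.ofReal ‖Complex.exp (c * g t) - Complex.exp (c * LG x ε t)‖ ≤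
      ENNReal.ofReal (T * (η / 2)) := by
    have h4 : ∀ τ : ℝ, ∫⁻ t in Set.Icc τ (τ + 1),
        ENNReal.ofReal ‖Complex.exp (c * g t) - Complex.exp (c * LG x ε t)‖ ≤
        ENNReal.ofReal (η / 4) := fun τ => by
      simp_rw [norm_sub_rev (Complex.exp (c * g _))]
      exact (h ε τ hε).trans (ENNReal.ofReal_le_ofReal hε2)
    refine (cover h4 a hT1).trans (le_of_eq ?_)
    rw [← ENNReal.ofReal_mul (by positivity)]
    congr 1
    ring
  have i3 : IntegrableOn (fun t => Complex.exp (c * g t) - Complex.exp (c * LG x ε t))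
      (Set.Ioc a (a + T)) := by
    refine ⟨(hgm.sub hcL.measurable).aestronglyMeasurable, ?_⟩
    rw [hasFiniteIntegral_iff_norm]
    exact hd.trans_lt ENNReal.ofReal_lt_top
  have i2 : IntegrableOn (fun t => Complex.exp (c * g t)) (Set.Ioc a (a + T)) := by
    have := i3.add i1
    refine this.congr (Eventually.of_forall fun t => ?_)
    simp
  have h5 : ‖av (fun t => Complex.exp (c * g t)) a T -
      av (fun t => Complex.exp (c * LG x ε t)) a T‖ ≤ η / 2 := by
    unfold av
    rw [intervalIntegral.integral_of_le (by linarith), intervalIntegral.integral_of_le (by linarith),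
      ← mul_sub, ← integral_sub i2 i1, norm_mul, norm_inv, Complex.norm_real, Real.norm_eq_abs,
      abs_of_pos hT0]
    have h6 : ‖∫ t in Set.Ioc a (a + T), (Complex.exp (c * g t) - Complex.exp (c * LG x ε t))‖ ≤
        T * (η / 2) := by
      refine (norm_integral_le_lintegral_norm _).trans ?_
      exact ENNReal.toReal_le_of_le_ofReal (by positivity) hd
    calc T⁻¹ * _ ≤ T⁻¹ * (T * (η / 2)) := mul_le_mul_of_nonneg_left h6 (by positivity)
      _ = _ := by field_simp
  have e : av (fun t => Complex.exp (c * g t)) a T - 1 =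
      (av (fun t => Complex.exp (c * g t)) a T - av (fun t => Complex.exp (c * LG x ε t)) a T) +
      (av (fun t => Complex.exp (c * LG x ε t)) a T - 1) := by ring
  rw [e]
  refine (norm_add_le _ _).trans ?_
  linarith

end

end Pool.Agent.X280.ED
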