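import Pool.Agent.X280.EB.Kernel
import Mathlib.Analysis.Fourier.AddCircleMulti
import Mathlib.Probability.ProductMeasure

/-! Equidistribution of `(p^{-it})_p` on the torus, uniformly in the interval. -/

set_option autoImplicit false

namespace Pool.Agent.X280.ED

open Finset MeasureTheory Filter Topology Pool.Agent.X280.EB

/-- the uniform distribution on the circle `ℝ/ℤ` -/
noncomputable abbrev hU : Measure UnitAddCircle := AddCircle.haarAddCircle

/-- independent uniformly distributed points on the circle -/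
noncomputable def PT : Measure (ℕ → UnitAddCircle) := Measure.infinitePi (fun _ => hU)

instance : IsProbabilityMeasure PT := by unfold PT; infer_instance

/-- the point of the circle with `e(fl t p) = p^{-it}` -/
noncomputable def fl (t : ℝ) (p : ℕ) : UnitAddCircle :=
  ((-(t * Real.log p) / (2 * Real.pi) : ℝ) : UnitAddCircle)

/-- `e(x)` -/
noncomputable def ee (x : UnitAddCircle) : ℂ := ((AddCircle.toCircle x : Circle) : ℂ)

theorem cont_ee : Continuous ee := by
  unfold ee
  exact continuous_subtype_val.comp AddCircle.continuous_toCircle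

theorem norm_ee (x : UnitAddCircle) : ‖ee x‖ = 1 := Circle.norm_coe _

theorem ee_add (x y : UnitAddCircle) : ee (x + y) = ee x * ee y := by
  unfold ee
  rw [AddCircle.toCircle_add]
  simp

theorem ee_fl (t : ℝ) (p : ℕ) : ee (fl t p) = ch (Real.log p) t := by
  unfold ee fl ch
  rw [AddCircle.toCircle_apply_mk, Circle.coe_exp]
  congr 1
  have : Real.pi ≠ 0 := Real.pi_ne_zero
  push_cast
  field_simp

theorem fl_add (s t : ℝ) (p : ℕ) : fl (s + t) p = fl s p + fl t p := by
  unfold fl
  rw [← AddCircle.coe_add]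
  congr 1
  ring

theorem cont_fl (p : ℕ) : Continuous fun t => fl t p := by
  unfold fl
  exact (AddCircle.continuous_mk' (1 : ℝ)).comp (by fun_prop)

/-- mean values along a curve -/
noncomputable def av (f : ℝ → ℂ) (a T : ℝ) : ℂ := (T : ℂ)⁻¹ * ∫ t in a..(a + T), f t

theorem av_add {f g : ℝ → ℂ} (hf : Continuous f) (hg : Continuous g) (a T : ℝ) :
    av (fun t => f t + g t) a T = av f a T + av g a T := by
  unfold av
  rw [intervalIntegral.integral_add (hf.intervalIntegrable _ _) (hg.intervalIntegrable _ _)]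
  ring

theorem av_smul (c : ℂ) (f : ℝ → ℂ) (a T : ℝ) : av (fun t => c * f t) a T = c * av f a T := by
  unfold av
  rw [intervalIntegral.integral_const_mul]
  ring

theorem av_le {f : ℝ → ℂ} {C : ℝ} (h : ∀ t, ‖f t‖ ≤ C) (a : ℝ) {T : ℝ} (hT : 0 < T) :
    ‖av f a T‖ ≤ C := by
  unfold av
  have h1 := intervalIntegral.norm_integral_le_of_norm_le_const (a := a) (b := a + T)
    (f := f) (C := C) fun t _ => h t
  rw [add_sub_cancel_left, abs_of_pos hT] at h1
  rw [norm_mul, norm_inv, Complex.norm_real, Real.norm_eq_abs, abs_of_pos hT]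
  calc T⁻¹ * _ ≤ T⁻¹ * (C * T) := mul_le_mul_of_nonneg_left h1 (by positivity)
    _ = C := by field_simp

/-- convergence of mean values, uniformly in the interval -/
def Mean (f : ℝ → ℂ) (c : ℂ) : Prop :=
  ∀ η : ℝ, 0 < η → ∃ T₀ : ℝ, 0 < T₀ ∧ ∀ T, T₀ ≤ T → ∀ a, ‖av f a T - c‖ ≤ η

theorem Mean.add {f g : ℝ → ℂ} {c d : ℂ} (hf : Continuous f) (hg : Continuous g) (h1 : Mean f c)
    (h2 : Mean g d) : Mean (fun t => f t + g t) (c + d) := by
  intro η hη
  obtain ⟨T1, hT1, h1⟩ := h1 (η / 2) (by positivity)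
  obtain ⟨T2, hT2, h2⟩ := h2 (η / 2) (by positivity)
  refine ⟨max T1 T2, lt_max_of_lt_left hT1, fun T hT a => ?_⟩
  rw [av_add hf hg]
  have e : av f a T + av g a T - (c + d) = (av f a T - c) + (av g a T - d) := by ring
  rw [e]
  refine (norm_add_le _ _).trans ?_
  have := h1 T ((le_max_left _ _).trans hT) a
  have := h2 T ((le_max_right _ _).trans hT) a
  linarith

theorem Mean.smul {f : ℝ → ℂ} {c : ℂ} (k : ℂ) (h1 : Mean f c) :
    Mean (fun t => k * f t) (k * c) := by
  intro η hη
  obtain ⟨T1, hT1, h1⟩ := h1 (η / (‖k‖ + 1)) (by positivity)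
  refine ⟨T1, hT1, fun T hT a => ?_⟩
  rw [av_smul, ← mul_sub, norm_mul]
  have h2 := h1 T hT a
  rw [le_div_iff₀ (by positivity)] at h2
  nlinarith [norm_nonneg (av f a T - c), norm_nonneg k]

theorem mean_zero : Mean (fun _ => 0) 0 := by
  intro η hη
  refine ⟨1, one_pos, fun T hT a => ?_⟩
  unfold av
  simp [hη.le]

theorem mean_one : Mean (fun _ => 1) 1 := by
  intro η hη
  refine ⟨1, one_pos, fun T hT a => ?_⟩
  have hT0 : (T : ℂ) ≠ 0 := by
    have : T ≠ 0 := by linarith
    exact_mod_cast this
  unfold av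
  simp [hT0, hη.le]

/-- an exponential -/
theorem mean_exp {l : ℝ} (hl : l ≠ 0) : Mean (fun t => ch l t) 0 := by
  intro η hη
  have hl' : 0 < |l| := abs_pos.2 hl
  refine ⟨2 / (|l| * η), by positivity, fun T hT a => ?_⟩
  have hT0 : 0 < T := lt_of_lt_of_le (by positivity) hT
  have hc : (-(l : ℂ) * Complex.I) ≠ 0 := by
    simp [hl]
  have h1 : ∫ t in a..(a + T), ch l t = (ch l (a + T) - ch l a) / (-(l : ℂ) * Complex.I) := by
    have e : ∀ t : ℝ, ch l t = Complex.exp ((-(l : ℂ) * Complex.I) * (t : ℂ)) := fun t => by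
      unfold ch
      congr 1
      push_cast
      ring
    simp_rw [e]
    exact integral_exp_mul_complex hc
  rw [sub_zero]
  unfold av
  rw [h1, norm_mul, norm_div, norm_inv, Complex.norm_real, Real.norm_eq_abs, abs_of_pos hT0,
    norm_mul, norm_neg, Complex.norm_I, mul_one, Complex.norm_real, Real.norm_eq_abs]
  have h2 : ‖ch l (a + T) - ch l a‖ ≤ 2 := by
    refine (norm_sub_le _ _).trans ?_
    rw [norm_ch, norm_ch]
    norm_num
  have h3 : 2 ≤ T * (|l| * η) := by
    rw [div_le_iff₀ (by positivity)] at hT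
    linarith
  rw [← div_eq_inv_mul, div_div, div_le_iff₀ (by positivity)]
  nlinarith

section
variable {s : Finset ℕ}

/-- the curve on the finite torus -/
noncomputable def fs (s : Finset ℕ) (t : ℝ) : UnitAddTorus s := fun p => fl t p

theorem cont_fs : Continuous (fs s) := continuous_pi fun p => cont_fl p

theorem mF (n : s → ℤ) (t : ℝ) :
    UnitAddTorus.mFourier n (fs s t) = ch (∑ p, n p * Real.log ((p : ℕ) : ℝ)) t := by
  have h1 : UnitAddTorus.mFourier n (fs s t) = ∏ p : s, ee (fl t p) ^ (n p) := by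
    change ∏ p, fourier (n p) (fs s t p) = _
    refine Finset.prod_congr rfl fun p _ => ?_
    rw [fourier_apply, AddCircle.toCircle_zsmul]
    unfold ee fs
    simp
  rw [h1]
  simp_rw [ee_fl]
  unfold ch
  simp_rw [← Complex.exp_int_mul]
  rw [← Complex.exp_sum]
  congr 1
  rw [Finset.mul_sum]
  push_cast
  rw [← Finset.sum_neg_distrib, Finset.sum_mul]
  refine Finset.sum_congr rfl fun p _ => ?_
  ring

/-- The logarithms of the primes are linearly independent over the integers. -/
theorem log_indep (hs : ∀ p ∈ s, p.Prime) (n : s → ℤ)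
    (h : ∑ p, n p * Real.log ((p : ℕ) : ℝ) = 0) : n = 0 := by
  classical
  have hp : ∀ p : s, (p : ℕ).Prime := fun p => hs p p.2
  have h0 : ∀ p : s, (0 : ℝ) < ((p : ℕ) : ℝ) := fun p => by exact_mod_cast (hp p).pos
  set A : ℕ := ∏ p : s, (p : ℕ) ^ (n p).toNat with hA
  set B : ℕ := ∏ p : s, (p : ℕ) ^ (-n p).toNat with hB
  have hA0 : A ≠ 0 := Finset.prod_ne_zero_iff.2 fun p _ => pow_ne_zero _ (hp p).ne_zero
  have hB0 : B ≠ 0 := Finset.prod_ne_zero_iff.2 fun p _ => pow_ne_zero _ (hp p).ne_zero
  have e1 : Real.log A = ∑ p : s, ((n p).toNat : ℝ) * Real.log ((p : ℕ) : ℝ) := by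
    rw [hA]
    push_cast
    rw [Real.log_prod (fun p _ => (pow_pos (h0 p) _).ne')]
    exact Finset.sum_congr rfl fun p _ => Real.log_pow _ _
  have e2 : Real.log B = ∑ p : s, ((-n p).toNat : ℝ) * Real.log ((p : ℕ) : ℝ) := by
    rw [hB]
    push_cast
    rw [Real.log_prod (fun p _ => (pow_pos (h0 p) _).ne')]
    exact Finset.sum_congr rfl fun p _ => Real.log_pow _ _
  have e3 : Real.log A = Real.log B := by
    rw [← sub_eq_zero, e1, e2, ← Finset.sum_sub_distrib, ← h]
    refine Finset.sum_congr rfl fun p _ => ?_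
    rw [← sub_mul]
    congr 1
    have := Int.toNat_sub_toNat_neg (n p)
    exact_mod_cast this
  have e4 : A = B := by
    have := Real.log_injOn_pos (Set.mem_Ioi.2 (by exact_mod_cast Nat.pos_of_ne_zero hA0))
      (Set.mem_Ioi.2 (by exact_mod_cast Nat.pos_of_ne_zero hB0)) e3
    exact_mod_cast this
  have key : ∀ (m : s → ℕ) (q : s), (∏ p : s, (p : ℕ) ^ m p).factorization q = m q := by
    intro m q
    rw [Nat.factorization_prod (fun p _ => pow_ne_zero _ (hp p).ne_zero)]
    rw [Finsupp.finsetSum_apply, Finset.sum_eq_single q]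
    · rw [Nat.factorization_pow, Finsupp.smul_apply, (hp q).factorization_self, smul_eq_mul, mul_one]
    · intro p _ hpq
      rw [Nat.factorization_pow, Finsupp.smul_apply, (hp p).factorization, Finsupp.single_apply,
        if_neg (fun h => hpq (Subtype.ext h)), smul_zero]
    · intro h
      exact absurd (Finset.mem_univ q) h
  funext q
  have h1 := key (fun p => (n p).toNat) q
  have h2 := key (fun p => (-n p).toNat) q
  rw [← hA] at h1
  rw [← hB] at h2
  rw [e4, h2] at h1
  have h3 := Int.toNat_sub_toNat_neg (n q)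
  simp only [Pi.zero_apply]
  have h4 : ((-n q).toNat : ℤ) = (n q).toNat := by exact_mod_cast h1
  rw [h4] at h3
  omega

theorem int_fourier {k : ℤ} (hk : k ≠ 0) : ∫ x, fourier k x ∂hU = 0 := by
  have h1 : fourierCoeff (T := 1) (fourier k) 0 = 0 := by
    rw [fourierCoeff_fourier]
    simp [hk.symm]
  unfold fourierCoeff at h1
  simpa using h1

theorem int_mF (n : s → ℤ) :
    ∫ y, UnitAddTorus.mFourier n y ∂(Measure.pi fun _ : s => hU) = if n = 0 then 1 else 0 := by
  split_ifs with h
  · subst h
    rw [UnitAddTorus.mFourier_zero]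
    simp
  · have h1 : ∫ y, UnitAddTorus.mFourier n y ∂(Measure.pi fun _ : s => hU) =
        ∏ p, ∫ x, fourier (n p) x ∂hU :=
      integral_fintype_prod_eq_prod (f := fun (p : s) (x : UnitAddCircle) => fourier (n p) x)
    rw [h1]
    obtain ⟨q, hq⟩ := Function.ne_iff.1 h
    exact Finset.prod_eq_zero (Finset.mem_univ q) (int_fourier hq)

/-- **Equidistribution on the finite torus**, uniformly in the interval. -/
theorem equi (hs : ∀ p ∈ s, p.Prime) (f : C(UnitAddTorus s, ℂ)) :
    Mean (fun t => f (fs s t)) (∫ y, f y ∂(Measure.pi fun _ : s => hU)) := by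
  have hint : ∀ f : C(UnitAddTorus s, ℂ), Integrable f (Measure.pi fun _ : s => hU) := fun f => by
    refine Integrable.of_bound f.continuous.aestronglyMeasurable ‖f‖ ?_
    exact Eventually.of_forall fun y => f.norm_coe_le_norm y
  have hspan : ∀ f ∈ Submodule.span ℂ (Set.range (UnitAddTorus.mFourier (d := s))),
      Mean (fun t => f (fs s t)) (∫ y, f y ∂(Measure.pi fun _ : s => hU)) := by
    intro f hf
    induction hf using Submodule.span_induction with
    | mem f hf =>
      obtain ⟨n, rfl⟩ := hf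
      rw [int_mF]
      simp_rw [mF]
      split_ifs with h
      · subst h
        have e : ∀ t, ch (∑ p : s, ((0 : s → ℤ) p : ℝ) * Real.log ((p : ℕ) : ℝ)) t = 1 := by
          intro t
          simp [ch]
        simp_rw [e]
        exact mean_one
      · exact mean_exp fun h' => h (log_indep hs n h')
    | zero => simpa using mean_zero
    | add f g _ _ h1 h2 =>
      have h3 := Mean.add (f.continuous.comp cont_fs) (g.continuous.comp cont_fs) h1 h2
      rw [← integral_add (hint f) (hint g)] at h3
      exact h3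
    | smul k f _ h1 =>
      have h3 := Mean.smul k h1
      rw [← integral_const_mul] at h3
      exact h3
  intro η hη
  have hd : f ∈ closure (Submodule.span ℂ (Set.range (UnitAddTorus.mFourier (d := s))) :
      Set C(UnitAddTorus s, ℂ)) := by
    rw [← Submodule.topologicalClosure_coe, UnitAddTorus.span_mFourier_closure_eq_top]
    trivial
  obtain ⟨g, hg, hfg⟩ := Metric.mem_closure_iff.1 hd (η / 3) (by positivity)
  obtain ⟨T₀, hT₀, h1⟩ := hspan g hg (η / 3) (by positivity)
  refine ⟨T₀, hT₀, fun T hT a => ?_⟩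
  have hT0 : 0 < T := hT₀.trans_le hT
  have h2 := h1 T hT a
  have h3 : ∀ y, ‖f y - g y‖ ≤ η / 3 := fun y => by
    rw [← dist_eq_norm]
    exact (ContinuousMap.dist_apply_le_dist y).trans hfg.le
  have h4 : av (fun t => f (fs s t)) a T - av (fun t => g (fs s t)) a T =
      av (fun t => f (fs s t) - g (fs s t)) a T := by
    have := av_add (f := fun t => f (fs s t) - g (fs s t)) (g := fun t => g (fs s t))
      ((f.continuous.comp cont_fs).sub (g.continuous.comp cont_fs)) (g.continuous.comp cont_fs) a T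
    simp only [sub_add_cancel] at this
    rw [this]
    ring
  have h5 : ‖av (fun t => f (fs s t)) a T - av (fun t => g (fs s t)) a T‖ ≤ η / 3 := by
    rw [h4]
    exact av_le (fun t => h3 _) a hT0
  have h6 : ‖∫ y, f y ∂(Measure.pi fun _ : s => hU) - ∫ y, g y ∂(Measure.pi fun _ : s => hU)‖ ≤
      η / 3 := by
    rw [← integral_sub (hint f) (hint g)]
    have := norm_integral_le_of_norm_le_const (μ := Measure.pi fun _ : s => hU) (C := η / 3)
      (f := fun y => f y - g y) (Eventually.of_forall h3)
    simpa using this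
  have e : av (fun t => f (fs s t)) a T - ∫ y, f y ∂(Measure.pi fun _ : s => hU) =
      (av (fun t => f (fs s t)) a T - av (fun t => g (fs s t)) a T) +
      (av (fun t => g (fs s t)) a T - ∫ y, g y ∂(Measure.pi fun _ : s => hU)) -
      (∫ y, f y ∂(Measure.pi fun _ : s => hU) - ∫ y, g y ∂(Measure.pi fun _ : s => hU)) := by ring
  rw [e]
  refine (norm_sub_le _ _).trans ?_
  have := norm_add_le (av (fun t => f (fs s t)) a T - av (fun t => g (fs s t)) a T)
    (av (fun t => g (fs s t)) a T - ∫ y, g y ∂(Measure.pi fun _ : s => hU))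
  linarith

end

end Pool.Agent.X280.ED
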