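import Pool.Agent.X280.ED.Tail
import Pool.Agent.X280.ED.Torus

/-! The random Euler product. -/

set_option autoImplicit false

namespace Pool.Agent.X280.ED

open Finset MeasureTheory Filter Topology Pool.Agent.X280.EB
open scoped ENNReal

theorem hz_anti {z z' : ℕ} (h : z ≤ z') (m : ℕ) : hz z' m ≤ hz z m := by
  unfold hz
  split_ifs with h1 h2 <;> first | omega | norm_num

theorem hz_sum_anti {w : ℕ → ℝ} (hw : Summable w) (h0 : ∀ m, 0 ≤ w m) {z z' : ℕ} (h : z ≤ z') :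
    ∑' m, hz z' m * w m ≤ ∑' m, hz z m * w m := by
  have hs : ∀ z, Summable fun m => hz z m * w m := fun z =>
    Summable.of_nonneg_of_le (fun m => mul_nonneg (hz_nonneg z m) (h0 m))
      (fun m => mul_le_of_le_one_left (h0 m) (hz_le z m)) hw
  exact (hs z').tsum_le_tsum (fun m => mul_le_mul_of_nonneg_right (hz_anti h m) (h0 m)) (hs z)

theorem Dz_anti {z z' : ℕ} (h : z ≤ z') : Dz z' ≤ Dz z := by
  have h1 : T1 z' ≤ T1 z := by
    unfold T1
    have := hz_sum_anti kw_summable kw_nonneg h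
    gcongr
  have h2 : T2 z' ≤ T2 z := hz_sum_anti sq_summable (fun m => by positivity) h
  have h3 := T2_nonneg z'
  unfold Dz
  nlinarith

theorem T1_nonneg (z : ℕ) : 0 ≤ T1 z := by
  unfold T1
  have : 0 ≤ ∑' m, hz z m * kw m := tsum_nonneg fun m => mul_nonneg (hz_nonneg z m) (kw_nonneg m)
  positivity

theorem Dz_nonneg (z : ℕ) : 0 ≤ Dz z := by
  have := T1_nonneg z
  have := T2_nonneg z
  unfold Dz
  positivity

section
variable {r : ℕ} {x : ℕ → Fin r → ℂ}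

/-- the logarithm of the Euler product over the primes up to `z` on the edge, with the numbers `u p`
in the place of `p^{-it}` -/
noncomputable def LE (z : ℕ) (x : ℕ → Fin r → ℂ) (u : ℕ → ℂ) : ℂ :=
  ∑ p ∈ pz z, ∑ j, Complex.log (1 - x p j * (p : ℂ)⁻¹ * u p)⁻¹

theorem TR_zero (z : ℕ) (x : ℕ → Fin r → ℂ) (t : ℝ) :
    TR z x 0 t = LE z x (fun p => ch (Real.log p) t) := by
  unfold TR LE zz
  refine Finset.sum_congr rfl fun p hp => Finset.sum_congr rfl fun j _ => ?_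
  rw [add_zero, Real.rpow_neg_one]
  push_cast
  rfl

theorem cont_local (hx : ∀ p : ℕ, p.Prime → ∀ j, ‖x p j‖ ≤ 1) {p : ℕ} (hp : p.Prime) (j : Fin r) {Z : Type}
    [TopologicalSpace Z] {u : Z → ℂ} (hu : Continuous u) (hu1 : ∀ y, ‖u y‖ = 1) :
    Continuous fun y => Complex.log (1 - x p j * (p : ℂ)⁻¹ * u y)⁻¹ := by
  have hn : ∀ y, ‖x p j * (p : ℂ)⁻¹ * u y‖ ≤ 1 / 2 := by
    intro y
    rw [norm_mul, norm_mul, hu1, mul_one, norm_inv, Complex.norm_natCast]
    have hp2 : (2 : ℝ) ≤ p := by exact_mod_cast hp.two_le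
    have h1 : (p : ℝ)⁻¹ ≤ 1 / 2 := by
      rw [one_div]
      exact inv_anti₀ (by norm_num) hp2
    calc ‖x p j‖ * (p : ℝ)⁻¹ ≤ 1 * (p : ℝ)⁻¹ :=
          mul_le_mul_of_nonneg_right (hx p hp j) (by positivity)
      _ ≤ _ := by linarith
  have hre : ∀ y, 0 < (1 - x p j * (p : ℂ)⁻¹ * u y).re := by
    intro y
    have := Complex.abs_re_le_norm (x p j * (p : ℂ)⁻¹ * u y)
    have h2 := (abs_le.1 this).2
    have h3 := hn y
    simp only [Complex.sub_re, Complex.one_re]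
    linarith
  have hne : ∀ y, (1 - x p j * (p : ℂ)⁻¹ * u y) ≠ 0 := fun y h => by
    have := hre y
    rw [h] at this
    simp at this
  refine Continuous.clog ?_ fun y => ?_
  · exact Continuous.inv₀ (continuous_const.sub (continuous_const.mul hu)) hne
  · refine Or.inl ?_
    rw [Complex.inv_re]
    exact div_pos (hre y) (Complex.normSq_pos.2 (hne y))

theorem cont_LE (hx : ∀ p : ℕ, p.Prime → ∀ j, ‖x p j‖ ≤ 1) (z : ℕ) {Z : Type} [TopologicalSpace Z]
    {u : Z → ℕ → ℂ} (hu : ∀ p, Continuous fun y => u y p) (hu1 : ∀ y p, ‖u y p‖ = 1) :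
    Continuous fun y => LE z x (u y) := by
  unfold LE
  refine continuous_finsetSum _ fun p hp => continuous_finsetSum _ fun j _ => ?_
  exact cont_local hx (mem_pz.1 hp).2 j (hu p) (fun y => hu1 y p)

/-- the random truncated logarithm -/
noncomputable def YY (z : ℕ) (x : ℕ → Fin r → ℂ) (θ : ℕ → UnitAddCircle) : ℂ :=
  LE z x (fun p => ee (θ p))

theorem cont_YY (hx : ∀ p : ℕ, p.Prime → ∀ j, ‖x p j‖ ≤ 1) (z : ℕ) : Continuous (YY z x) :=
  cont_LE hx z (fun p => cont_ee.comp (continuous_apply p)) (fun _ _ => norm_ee _)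

/-- extension by zero -/
noncomputable def ext0 (z : ℕ) (y : UnitAddTorus (pz z)) (p : ℕ) : UnitAddCircle :=
  if h : p ∈ pz z then y ⟨p, h⟩ else 0

theorem cont_ext0 (z : ℕ) : Continuous (ext0 z) := by
  refine continuous_pi fun p => ?_
  unfold ext0
  split_ifs with h
  · exact continuous_apply _
  · exact continuous_const

theorem YY_ext (z z' : ℕ) (hz : z' ≤ z) (θ : ℕ → UnitAddCircle) :
    YY z' x (ext0 z ((pz z).restrict θ)) = YY z' x θ := by
  unfold YY LE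
  refine Finset.sum_congr rfl fun p hp => Finset.sum_congr rfl fun j _ => ?_
  have h : p ∈ pz z := mem_pz.2 ⟨(mem_pz.1 hp).1.trans hz, (mem_pz.1 hp).2⟩
  have e : ext0 z ((pz z).restrict θ) p = θ p := by
    unfold ext0
    rw [dif_pos h]
    rfl
  simp only [e]

theorem TR_ext (z z' : ℕ) (hz : z' ≤ z) (t : ℝ) :
    TR z' x 0 t = YY z' x (ext0 z (fs (pz z) t)) := by
  rw [TR_zero]
  unfold YY LE
  refine Finset.sum_congr rfl fun p hp => Finset.sum_congr rfl fun j _ => ?_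
  have h : p ∈ pz z := mem_pz.2 ⟨(mem_pz.1 hp).1.trans hz, (mem_pz.1 hp).2⟩
  have e : ext0 z (fs (pz z) t) p = fl t p := by
    unfold ext0 fs
    rw [dif_pos h]
  simp only [e, ee_fl]

end

/-- **Mean values of functions of the truncated logarithms.** -/
theorem mean_tr {ι : Type} [Fintype ι] {r : ι → ℕ} {x : ∀ i, ℕ → Fin (r i) → ℂ}
    (hx : ∀ i, ∀ p : ℕ, p.Prime → ∀ j, ‖x i p j‖ ≤ 1) (z : ι → ℕ) {Φ : (ι → ℂ) → ℂ} (hΦ : Continuous Φ) :
    Mean (fun t => Φ (fun i => TR (z i) (x i) 0 t)) (∫ θ, Φ (fun i => YY (z i) (x i) θ) ∂PT) := by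
  set Z := Finset.univ.sup z with hZ
  have hzZ : ∀ i, z i ≤ Z := fun i => Finset.le_sup (Finset.mem_univ i)
  set F : C(UnitAddTorus (pz Z), ℂ) :=
    ⟨fun y => Φ (fun i => YY (z i) (x i) (ext0 Z y)),
      hΦ.comp (continuous_pi fun i => (cont_YY (hx i) (z i)).comp (cont_ext0 Z))⟩ with hF
  have h1 := equi (s := pz Z) (fun p hp => (mem_pz.1 hp).2) F
  have h2 : ∫ y, F y ∂(Measure.pi fun _ : pz Z => hU) =
      ∫ θ, Φ (fun i => YY (z i) (x i) θ) ∂PT := by
    unfold PT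
    rw [← integral_restrict_infinitePi (μ := fun _ : ℕ => hU) (s := pz Z)
      F.continuous.aestronglyMeasurable]
    refine integral_congr_ae (Eventually.of_forall fun θ => ?_)
    simp only [hF, ContinuousMap.coe_mk]
    congr 1
    funext i
    exact YY_ext Z (z i) (hzZ i) θ
  rw [h2] at h1
  have h3 : (fun t => F (fs (pz Z) t)) = fun t => Φ (fun i => TR (z i) (x i) 0 t) := by
    funext t
    simp only [hF, ContinuousMap.coe_mk]
    congr 1
    funext i
    exact (TR_ext Z (z i) (hzZ i) t).symm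
  rw [h3] at h1
  exact h1

section
variable {r : ℕ} {x : ℕ → Fin r → ℂ}

theorem TR_lim (hx : ∀ p : ℕ, p.Prime → ∀ j, ‖x p j‖ ≤ 1) (z : ℕ) (t : ℝ) {e : ℕ → ℝ}
    (he : Tendsto e atTop (𝓝 0)) :
    Tendsto (fun k => TR z x (e k) t) atTop (𝓝 (TR z x 0 t)) := by
  unfold TR
  refine tendsto_finsetSum _ fun p hp => tendsto_finsetSum _ fun j _ => ?_
  have hp' := (mem_pz.1 hp).2
  have hp0 : (0 : ℝ) < p := by exact_mod_cast hp'.pos
  have h1 : Tendsto (fun k => zz x (e k) t p j) atTop (𝓝 (zz x 0 t p j)) := by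
    unfold zz
    refine Tendsto.mul_const _ (Tendsto.const_mul _ ?_)
    refine (Complex.continuous_ofReal.tendsto _).comp ?_
    have h2 : Continuous fun ε : ℝ => (p : ℝ) ^ (-(1 + ε)) :=
      (Real.continuous_const_rpow hp0.ne').comp (by fun_prop)
    exact (h2.tendsto 0).comp he
  obtain ⟨-, h3, h4⟩ := norm_zz hx le_rfl t hp' j
  have hre : 0 < (1 - zz x 0 t p j).re := by
    have := Complex.abs_re_le_norm (zz x 0 t p j)
    have h2 := (abs_le.1 this).2
    simp only [Complex.sub_re, Complex.one_re]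
    linarith
  have hne : (1 - zz x 0 t p j) ≠ 0 := fun h => by rw [h] at hre; simp at hre
  refine Tendsto.clog ((tendsto_const_nhds.sub h1).inv₀ hne) (Or.inl ?_)
  rw [Complex.inv_re]
  exact div_pos hre (Complex.normSq_pos.2 hne)

theorem TR_cont (hx : ∀ p : ℕ, p.Prime → ∀ j, ‖x p j‖ ≤ 1) (z : ℕ) {ε : ℝ} (hε : 0 < ε) :
    Continuous (TR z x ε) := by
  have : TR z x ε = fun t => LG x ε t - LG (cut z x) ε t := by
    funext t
    rw [← LG_cut hx hε]
    ring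
  rw [this]
  exact (LG_cont hx hε).sub (LG_cont (cut_le hx z) hε)

theorem TR_cont0 (hx : ∀ p : ℕ, p.Prime → ∀ j, ‖x p j‖ ≤ 1) (z : ℕ) : Continuous (TR z x 0) := by
  have : TR z x 0 = fun t => LE z x (fun p => ch (Real.log p) t) := funext fun t => TR_zero z x t
  rw [this]
  exact cont_LE hx z (fun p => cont_ch _) (fun _ _ => norm_ch _ _)

/-- the boundary values are approximated by the Euler products -/
theorem bd_tail (hx : ∀ p : ℕ, p.Prime → ∀ j, ‖x p j‖ ≤ 1) {g : ℝ → ℂ}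
    (hg : ∀ᵐ t, Tendsto (fun ε => LG x ε t) (𝓝[>] 0) (𝓝 (g t))) (z : ℕ) (τ : ℝ) :
    ∫⁻ t in Set.Icc τ (τ + 1), ENNReal.ofReal (‖g t - TR z x 0 t‖ ^ 2) ≤
      ENNReal.ofReal (r ^ 2 * Dz z) := by
  set e : ℕ → ℝ := fun k => 1 / ((k : ℝ) + 1) with he'
  have he0 : ∀ k, 0 < e k := fun k => by simp only [he']; positivity
  have he : Tendsto e atTop (𝓝 0) := tendsto_one_div_add_atTop_nhds_zero_nat
  have he1 : Tendsto e atTop (𝓝[>] 0) :=
    tendsto_nhdsWithin_iff.2 ⟨he, Eventually.of_forall fun k => he0 k⟩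
  refine fatou (F := fun k t => ‖LG x (e k) t - TR z x (e k) t‖ ^ 2)
    (fun k => ((LG_cont hx (he0 k)).sub (TR_cont hx z (he0 k))).norm.pow 2) ?_ fun k => ?_
  · refine ae_restrict_of_ae ?_
    filter_upwards [hg] with t ht
    exact (((ht.comp he1).sub (TR_lim hx z t he)).norm).pow 2
  · rw [toL (f := fun t => ‖LG x (e k) t - TR z x (e k) t‖ ^ 2)
      (((LG_cont hx (he0 k)).sub (TR_cont hx z (he0 k))).norm.pow 2) (fun t => by positivity)]
    refine ENNReal.ofReal_le_ofReal ?_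
    simp_rw [LG_cut hx (he0 k)]
    exact LG_tail hx (he0 k) z τ

/-- two truncations -/
theorem TR_diff (hx : ∀ p : ℕ, p.Prime → ∀ j, ‖x p j‖ ≤ 1) {z z' : ℕ} (hz : z ≤ z') (τ : ℝ) :
    ∫ t in τ..(τ + 1), ‖TR z' x 0 t - TR z x 0 t‖ ^ 2 ≤ 4 * r ^ 2 * Dz z := by
  set e : ℕ → ℝ := fun k => 1 / ((k : ℝ) + 1) with he'
  have he0 : ∀ k, 0 < e k := fun k => by simp only [he']; positivity
  have he : Tendsto e atTop (𝓝 0) := tendsto_one_div_add_atTop_nhds_zero_nat
  have hDz := Dz_anti hz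
  have hr : (0 : ℝ) ≤ (r : ℝ) ^ 2 := by positivity
  have h0 : ∀ k, ∫ t in τ..(τ + 1), ‖TR z' x (e k) t - TR z x (e k) t‖ ^ 2 ≤ 4 * r ^ 2 * Dz z := by
    intro k
    have hc1 := LG_cont (cut_le hx z) (he0 k)
    have hc2 := LG_cont (cut_le hx z') (he0 k)
    have h1 : ∫ t in τ..(τ + 1), ‖TR z' x (e k) t - TR z x (e k) t‖ ^ 2 ≤
        ∫ t in τ..(τ + 1), (2 * ‖LG (cut z x) (e k) t‖ ^ 2 + 2 * ‖LG (cut z' x) (e k) t‖ ^ 2) := by
      refine intervalIntegral.integral_mono_on (by linarith)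
        ((((TR_cont hx z' (he0 k)).sub (TR_cont hx z (he0 k))).norm.pow 2).intervalIntegrable _ _)
        (((continuous_const.mul (hc1.norm.pow 2)).add
          (continuous_const.mul (hc2.norm.pow 2))).intervalIntegrable _ _) fun t _ => ?_
      have e1 : TR z' x (e k) t - TR z x (e k) t =
          LG (cut z x) (e k) t - LG (cut z' x) (e k) t := by
        rw [← LG_cut hx (he0 k), ← LG_cut hx (he0 k)]
        ring
      rw [e1]
      have h2 := norm_sub_le (LG (cut z x) (e k) t) (LG (cut z' x) (e k) t)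
      have h3 := pow_le_pow_left₀ (norm_nonneg _) h2 2
      nlinarith [sq_nonneg (‖LG (cut z x) (e k) t‖ - ‖LG (cut z' x) (e k) t‖)]
    refine h1.trans ?_
    have i1 : IntervalIntegrable (fun t => 2 * ‖LG (cut z x) (e k) t‖ ^ 2) volume τ (τ + 1) :=
      (continuous_const.mul (hc1.norm.pow 2)).intervalIntegrable _ _
    have i2 : IntervalIntegrable (fun t => 2 * ‖LG (cut z' x) (e k) t‖ ^ 2) volume τ (τ + 1) :=
      (continuous_const.mul (hc2.norm.pow 2)).intervalIntegrable _ _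
    rw [intervalIntegral.integral_add i1 i2, intervalIntegral.integral_const_mul,
      intervalIntegral.integral_const_mul]
    have h2 := LG_tail hx (he0 k) z τ
    have h3 := LG_tail hx (he0 k) z' τ
    nlinarith [mul_le_mul_of_nonneg_left hDz hr]
  have h1 : ∫⁻ t in Set.Icc τ (τ + 1), ENNReal.ofReal (‖TR z' x 0 t - TR z x 0 t‖ ^ 2) ≤
      ENNReal.ofReal (4 * r ^ 2 * Dz z) := by
    refine fatou (F := fun k t => ‖TR z' x (e k) t - TR z x (e k) t‖ ^ 2)
      (fun k => ((TR_cont hx z' (he0 k)).sub (TR_cont hx z (he0 k))).norm.pow 2) ?_ fun k => ?_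
    · exact Eventually.of_forall fun t =>
        (((TR_lim hx z' t he).sub (TR_lim hx z t he)).norm).pow 2
    · rw [toL (f := fun t => ‖TR z' x (e k) t - TR z x (e k) t‖ ^ 2)
        (((TR_cont hx z' (he0 k)).sub (TR_cont hx z (he0 k))).norm.pow 2) (fun t => by positivity)]
      exact ENNReal.ofReal_le_ofReal (h0 k)
  rw [toL (f := fun t => ‖TR z' x 0 t - TR z x 0 t‖ ^ 2)
    (((TR_cont0 hx z').sub (TR_cont0 hx z)).norm.pow 2) (fun t => by positivity)] at h1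
  exact (ENNReal.ofReal_le_ofReal_iff (by have := Dz_nonneg z; positivity)).1 h1

/-- The same for the random truncations. -/
theorem YY_diff (hx : ∀ p : ℕ, p.Prime → ∀ j, ‖x p j‖ ≤ 1) {z z' : ℕ} (hz : z ≤ z') :
    ∫ θ, ‖YY z' x θ - YY z x θ‖ ^ 2 ∂PT ≤ 4 * r ^ 2 * Dz z := by
  have h1 := mean_tr (ι := Bool) (r := fun _ => r) (x := fun _ => x) (fun _ => hx)
    (fun b => if b then z' else z) (Φ := fun y => ((‖y true - y false‖ ^ 2 : ℝ) : ℂ)) (by fun_prop)
  simp only [if_true, Bool.false_eq_true, if_false] at h1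
  have e0 : ∫ θ, ((‖YY z' x θ - YY z x θ‖ ^ 2 : ℝ) : ℂ) ∂PT =
      ((∫ θ, ‖YY z' x θ - YY z x θ‖ ^ 2 ∂PT : ℝ) : ℂ) := integral_complex_ofReal
  rw [e0] at h1
  have hc : Continuous fun t => ‖TR z' x 0 t - TR z x 0 t‖ ^ 2 :=
    ((TR_cont0 hx z').sub (TR_cont0 hx z)).norm.pow 2
  by_contra hlt
  push Not at hlt
  set E := ∫ θ, ‖YY z' x θ - YY z x θ‖ ^ 2 ∂PT with hE
  obtain ⟨T₀, hT₀, h2⟩ := h1 ((E - 4 * r ^ 2 * Dz z) / 2) (by linarith)
  obtain ⟨N, hN⟩ := exists_nat_ge T₀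
  have hN0 : 0 < (N : ℝ) := lt_of_lt_of_le hT₀ hN
  have h3 := h2 N hN 0
  have h4 : av (fun t => ((‖TR z' x 0 t - TR z x 0 t‖ ^ 2 : ℝ) : ℂ)) 0 N =
      (((N : ℝ)⁻¹ * ∫ t in (0 : ℝ)..N, ‖TR z' x 0 t - TR z x 0 t‖ ^ 2 : ℝ) : ℂ) := by
    unfold av
    rw [intervalIntegral.integral_ofReal, zero_add]
    push_cast
    rfl
  rw [h4, ← Complex.ofReal_sub, Complex.norm_real, Real.norm_eq_abs] at h3
  have h5 : ∫ t in (0 : ℝ)..N, ‖TR z' x 0 t - TR z x 0 t‖ ^ 2 ≤ N * (4 * r ^ 2 * Dz z) := by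
    have e1 := intervalIntegral.sum_integral_adjacent_intervals (μ := volume)
      (f := fun t => ‖TR z' x 0 t - TR z x 0 t‖ ^ 2) (a := fun k : ℕ => (k : ℝ)) (n := N)
      (fun k _ => hc.intervalIntegrable _ _)
    simp only [Nat.cast_zero] at e1
    rw [← e1]
    refine (Finset.sum_le_sum fun k _ => ?_).trans_eq (b := ∑ _k ∈ range N, 4 * (r : ℝ) ^ 2 * Dz z) ?_
    · have := TR_diff hx hz (k : ℝ)
      push_cast
      exact this
    · simp
  have h6 : (N : ℝ)⁻¹ * ∫ t in (0 : ℝ)..N, ‖TR z' x 0 t - TR z x 0 t‖ ^ 2 ≤ 4 * r ^ 2 * Dz z := by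
    calc _ ≤ (N : ℝ)⁻¹ * (N * (4 * r ^ 2 * Dz z)) := mul_le_mul_of_nonneg_left h5 (by positivity)
      _ = _ := by field_simp
  have h7 := (abs_le.1 h3).1
  linarith

end

end Pool.Agent.X280.ED
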