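import Pool.Agent.X280.ED.Final

/-! The value distribution on the edge line, real exponents. -/

set_option autoImplicit false

namespace Pool.Agent.X280.ED

open Finset MeasureTheory Filter Topology Pool.Agent.X280.EB
open scoped ENNReal

/-- The logarithm of the Euler product over the primes `p ≤ z` at a point of the line `Re s = 1 + c`,
with the numbers `u p` in the place of `p^{-it}`. -/
noncomputable def logEPc {r : ℕ} (c : ℝ) (α : ℕ → Fin r → ℂ) (z : ℕ) (u : ℕ → ℂ) : ℂ :=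
  ∑ p ∈ (Finset.Icc 1 z).filter Nat.Prime, ∑ j,
    Complex.log (1 - α p j * (p : ℂ) ^ (-(1 + (c : ℂ))) * u p)⁻¹

/-- The system of weight zero. -/
noncomputable def shf {r : ℕ} (c : ℝ) (α : ℕ → Fin r → ℂ) (p : ℕ) (j : Fin r) : ℂ :=
  α p j * (p : ℂ) ^ (-(c : ℂ))

theorem shf_system {r : ℕ} {c : ℝ} {α : ℕ → Fin r → ℂ}
    (h : ∀ p : ℕ, p.Prime → ∀ j, ‖α p j‖ ≤ (p : ℝ) ^ c) : IsSystem 0 (shf c α) := by
  intro p hp j
  have hp0 : (0 : ℝ) < p := by exact_mod_cast hp.pos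
  unfold shf
  rw [norm_mul, Complex.norm_natCast_cpow_of_pos hp.pos]
  have h1 : (-(c : ℂ)).re = -c := by simp
  rw [h1]
  have h2 : (0 : ℝ) ≤ (p : ℝ) ^ (-c) := by positivity
  refine (mul_le_mul_of_nonneg_right (h p hp j) h2).trans (le_of_eq ?_)
  rw [← Real.rpow_add hp0]
  simp

theorem shf_mul {r : ℕ} (c : ℝ) (α : ℕ → Fin r → ℂ) {p : ℕ} (hp : p.Prime) (j : Fin r) (s : ℂ) :
    shf c α p j * (p : ℂ) ^ (-s) = α p j * (p : ℂ) ^ (-(s + c)) := by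
  have hpc : (p : ℂ) ≠ 0 := by exact_mod_cast hp.ne_zero
  unfold shf
  rw [mul_assoc, ← Complex.cpow_add _ _ hpc]
  congr 2
  ring

theorem logLf_shf {r : ℕ} (c : ℝ) (α : ℕ → Fin r → ℂ) (ε t : ℝ) :
    logLf (shf c α) (edgePt 0 ε t) = logLf α (1 + c + ε + t * Complex.I) := by
  unfold logLf
  refine tsum_congr fun p => Finset.sum_congr rfl fun j _ => ?_
  rw [shf_mul c α p.2 j]
  congr 5
  unfold edgePt
  push_cast
  ring

theorem logEP_shf {r : ℕ} (c : ℝ) (α : ℕ → Fin r → ℂ) (z : ℕ) (u : ℕ → ℂ) :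
    logEP 0 (shf c α) z u = logEPc c α z u := by
  unfold logEP logEPc
  refine Finset.sum_congr rfl fun p hp => Finset.sum_congr rfl fun j _ => ?_
  have hp' : p.Prime := (Finset.mem_filter.1 hp).2
  rw [shf_mul c α hp' j]
  congr 5
  push_cast
  ring

/-- **The value distribution on the edge line**, for systems with `|α_j(p)| ≤ p^c`, `c` real. -/
theorem edge_law_c : ∃ D : ℕ → ℝ, Tendsto D atTop (𝓝 0) ∧
    ∀ (ι : Type) [Fintype ι] (c : ι → ℝ) (r : ι → ℕ) (α : ∀ i, ℕ → Fin (r i) → ℂ),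
      (∀ i, ∀ p : ℕ, p.Prime → ∀ j, ‖α i p j‖ ≤ (p : ℝ) ^ c i) →
      ∃ (g : ι → ℝ → ℂ) (X : ι → (ℕ → UnitAddCircle) → ℂ),
        (∀ i, Measurable (g i) ∧ Measurable (X i) ∧
          (∀ᵐ t : ℝ, Tendsto (fun ε : ℝ => logLf (α i) (1 + c i + ε + t * Complex.I)) (𝓝[>] 0)
            (𝓝 (g i t))) ∧
          (∀ (z : ℕ) (τ : ℝ), ∫⁻ t in Set.Icc τ (τ + 1), ENNReal.ofReal
            (‖g i t - logEPc (c i) (α i) z (fun p => (p : ℂ) ^ (-(t * Complex.I)))‖ ^ 2) ≤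
              ENNReal.ofReal (r i ^ 2 * D z)) ∧
          ∀ z : ℕ, ∫⁻ θ, ENNReal.ofReal
            (‖X i θ - logEPc (c i) (α i) z (fun p => (AddCircle.toCircle (θ p) : ℂ))‖ ^ 2) ∂PT ≤
              ENNReal.ofReal (r i ^ 2 * D z)) ∧
        (∀ η : ℝ, 0 < η → ∃ l : ℝ, 0 < l ∧ ∀ a : ℝ, ∃ τ ∈ Set.Icc a (a + l), ∀ (i : ι) (b : ℝ),
          ∫⁻ t in Set.Icc b (b + 1), ENNReal.ofReal (‖g i (t + τ) - g i t‖ ^ 2) ≤
            ENNReal.ofReal η) ∧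
        (∀ (κ : ι → ℝ) (A : ℝ) (Φ : (ι → ℂ) → ℂ), (∀ i, 0 ≤ κ i) → ∑ i, κ i * r i < 1 →
          Continuous Φ → (∀ y, ‖Φ y‖ ≤ A * Real.exp (∑ i, κ i * ‖y i‖)) →
          (∀ a b : ℝ, IntervalIntegrable (fun t => Φ (fun i => g i t)) volume a b) ∧
          Integrable (fun θ => Φ (fun i => X i θ)) PT ∧
          Mean (fun t => Φ (fun i => g i t)) (∫ θ, Φ (fun i => X i θ) ∂PT)) ∧
        ∀ (i : ι) (k : ℂ), ‖k‖ * r i < 1 → Mean (fun t => Complex.exp (k * g i t)) 1 := by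
  obtain ⟨D, hD, h⟩ := edge_law
  refine ⟨D, hD, fun ι _ c r α hα => ?_⟩
  have h1 := h ι (fun _ => 0) r (fun i => shf (c i) (α i)) (fun i => shf_system (hα i))
  simp_rw [logLf_shf, logEP_shf] at h1
  exact h1

end Pool.Agent.X280.ED
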