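import Pool.Agent.X280.EB.Final

/-! The tails of the Euler products, in mean square, uniformly. -/

set_option autoImplicit false

namespace Pool.Agent.X280.ED

open Finset MeasureTheory Filter Topology Pool.Agent.X280.EB

/-- the indicator of `m > z` -/
noncomputable def hz (z m : ℕ) : ℝ := if z < m then 1 else 0

theorem hz_nonneg (z m : ℕ) : 0 ≤ hz z m := by unfold hz; split_ifs <;> norm_num

theorem hz_le (z m : ℕ) : hz z m ≤ 1 := by unfold hz; split_ifs <;> norm_num

theorem hz_tendsto (m : ℕ) : Tendsto (fun z => hz z m) atTop (𝓝 0) := by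
  refine tendsto_const_nhds.congr' ?_
  filter_upwards [eventually_ge_atTop m] with z hz'
  unfold hz
  rw [if_neg (by omega)]

theorem hz_tsum {w : ℕ → ℝ} (hw : Summable w) (h0 : ∀ m, 0 ≤ w m) :
    Tendsto (fun z => ∑' m, hz z m * w m) atTop (𝓝 0) := by
  have h := tendsto_tsum_of_dominated_convergence (𝓕 := (atTop : Filter ℕ))
    (f := fun z m => hz z m * w m) (g := fun _ => 0) hw
    (fun m => by simpa using (hz_tendsto m).mul_const (w m)) ?_
  · simpa using h
  · refine Eventually.of_forall fun z m => ?_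
    rw [Real.norm_eq_abs, abs_of_nonneg (mul_nonneg (hz_nonneg z m) (h0 m))]
    exact mul_le_of_le_one_left (h0 m) (hz_le z m)

/-- the modulus for the sum over the primes -/
noncomputable def T1 (z : ℕ) : ℝ :=
  Real.exp 1 * (Real.sqrt Real.pi * (2 * Real.exp 1 * 4 ^ 2 * ∑' m, hz z m * kw m))

theorem T1_tendsto : Tendsto T1 atTop (𝓝 0) := by
  have h := hz_tsum kw_summable kw_nonneg
  have h2 := ((h.const_mul (2 * Real.exp 1 * 4 ^ 2)).const_mul (Real.sqrt Real.pi)).const_mul
    (Real.exp 1)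
  rw [mul_zero, mul_zero, mul_zero] at h2
  exact h2

/-- **The tails of the sums over the primes.** -/
theorem PP_tail {a : ℕ → ℂ} {ρ : ℝ} (hρ : 0 ≤ ρ) (ha : ∀ p : ℕ, p.Prime → ‖a p‖ ≤ ρ) {z : ℕ}
    (haz : ∀ p : ℕ, p ≤ z → a p = 0) {ε : ℝ} (hε : 0 < ε) (τ : ℝ) :
    ∫ t in τ..(τ + 1), ‖PP a ε t‖ ^ 2 ≤ ρ ^ 2 * T1 z := by
  classical
  set c : ℕ → ℂ := fun n => if n.Prime then a n * (((n : ℝ) ^ (-(1 + ε)) : ℝ) : ℂ) else 0 with hc
  have hc0 : c 0 = 0 := by simp [hc, Nat.not_prime_zero]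
  have hcs : Summable fun n => ‖c n‖ := by
    have h1 : Summable fun p : Nat.Primes => ‖c p‖ := by
      refine Summable.of_nonneg_of_le (fun p => norm_nonneg _) (fun p => ?_)
        ((summable_pr ε hε).mul_left ρ)
      simp only [hc]
      rw [if_pos p.2, norm_mul, Complex.norm_real, Real.norm_eq_abs, abs_of_nonneg (by positivity)]
      exact mul_le_mul_of_nonneg_right (ha p p.2) (by positivity)
    have h2 : (fun n => ‖c n‖) = Set.indicator {p : ℕ | p.Prime} (fun n => ‖c n‖) := by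
      funext n
      by_cases hn : n.Prime
      · rw [Set.indicator_of_mem (by exact hn)]
      · rw [Set.indicator_of_notMem (by exact hn)]
        simp [hc, hn]
    rw [h2]
    exact (summable_subtype_iff_indicator (f := fun n => ‖c n‖) (s := {p : ℕ | p.Prime})).1 h1
  have hP : ∀ t, PP a ε t = ∑' n, c n * ch (Real.log n) t := by
    intro t
    unfold PP
    have h3 : (fun n : ℕ => c n * ch (Real.log n) t) =
        Set.indicator {p : ℕ | p.Prime} (fun n : ℕ => c n * ch (Real.log n) t) := by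
      funext n
      by_cases hn : n.Prime
      · rw [Set.indicator_of_mem (by exact hn)]
      · rw [Set.indicator_of_notMem (by exact hn)]
        simp [hc, hn]
    rw [h3, ← _root_.tsum_subtype]
    refine tsum_congr fun p => ?_
    simp only [hc]
    rw [if_pos p.2]
  have hM : ∀ M : ℕ, ∫ t in τ..(τ + 1), ‖∑ n ∈ Icc 1 M, c n * ch (Real.log n) t‖ ^ 2 ≤
      ρ ^ 2 * T1 z := by
    intro M
    refine (gauss_bound (Icc 1 M) c (fun n => Real.log n) τ).trans ?_
    have hb : ∀ n ∈ Icc 1 M, ‖c n‖ ≤ hz z n * ((4 * ρ) * (ff (1 / 4) n / n)) := by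
      intro n hn
      have hf : 0 ≤ ff (1 / 4) n := ff_nonneg (by norm_num) n
      by_cases hp : n.Prime
      · simp only [hc]
        rw [if_pos hp, norm_mul, Complex.norm_real, Real.norm_eq_abs,
          abs_of_nonneg (by positivity), ff_prime hp]
        rcases le_or_gt n z with h | h
        · rw [haz n h, norm_zero, zero_mul]
          exact mul_nonneg (hz_nonneg z n) (by positivity)
        · have e1 : hz z n = 1 := by unfold hz; rw [if_pos h]
          rw [e1, one_mul]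
          calc _ ≤ ρ * (n : ℝ)⁻¹ :=
                mul_le_mul (ha n hp) (rpow_le_inv hε.le hp) (by positivity) hρ
            _ = _ := by ring
      · simp only [hc]
        rw [if_neg hp, norm_zero]
        exact mul_nonneg (hz_nonneg z n) (by positivity)
    have h1 := dblh (κ := 1 / 4) (B := 4 * ρ) (by norm_num) (by positivity) M (fun n => ‖c n‖)
      (fun n => hz z n) (fun n => norm_nonneg _) (fun n hn => by
        have hf : 0 ≤ ff (1 / 4) n := ff_nonneg (by norm_num) n
        exact (hb n hn).trans (mul_le_of_le_one_left (by positivity) (hz_le z n))) hb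
    have h2 : ∑ m ∈ Icc 1 M, hz z m * (ff (1 / 4) m * WS (1 / 4) m / (m : ℝ) ^ 2) ≤
        ∑' m, hz z m * kw m := by
      have hs : Summable fun m => hz z m * kw m :=
        Summable.of_nonneg_of_le (fun m => mul_nonneg (hz_nonneg z m) (kw_nonneg m))
          (fun m => mul_le_of_le_one_left (kw_nonneg m) (hz_le z m)) kw_summable
      exact hs.sum_le_tsum (Icc 1 M) fun m _ => mul_nonneg (hz_nonneg z m) (kw_nonneg m)
    have h3 : ρ ^ 2 * T1 z = Real.exp 1 * (Real.sqrt Real.pi *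
        (2 * Real.exp 1 * (4 * ρ) ^ 2 * ∑' m, hz z m * kw m)) := by
      unfold T1
      ring
    rw [h3]
    refine mul_le_mul_of_nonneg_left (mul_le_mul_of_nonneg_left ?_ (Real.sqrt_nonneg _))
      (Real.exp_pos _).le
    refine h1.trans (mul_le_mul_of_nonneg_left h2 ?_)
    positivity
  have h := lim_sum hcs hc0 hM
  simp_rw [← hP] at h
  exact h

/-- the modulus for the remaining part -/
noncomputable def T2 (z : ℕ) : ℝ := ∑' m : ℕ, hz z m * ((m : ℝ) ^ 2)⁻¹

theorem T2_tendsto : Tendsto T2 atTop (𝓝 0) := hz_tsum sq_summable fun m => by positivity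

theorem T2_nonneg (z : ℕ) : 0 ≤ T2 z :=
  tsum_nonneg fun m => mul_nonneg (hz_nonneg z m) (by positivity)

/-- the modulus -/
noncomputable def Dz (z : ℕ) : ℝ := 2 * T1 z + 2 * T2 z ^ 2

theorem Dz_tendsto : Tendsto Dz atTop (𝓝 0) := by
  have h := (T1_tendsto.const_mul 2).add ((T2_tendsto.pow 2).const_mul 2)
  have e : (2 : ℝ) * 0 + 2 * 0 ^ 2 = 0 := by norm_num
  rw [e] at h
  exact h

section
variable {r : ℕ} {x : ℕ → Fin r → ℂ}

/-- the eigenvalues at the primes above `z` -/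
noncomputable def cut (z : ℕ) (x : ℕ → Fin r → ℂ) (p : ℕ) (j : Fin r) : ℂ := if p ≤ z then 0 else x p j

theorem cut_le (hx : ∀ p : ℕ, p.Prime → ∀ j, ‖x p j‖ ≤ 1) (z : ℕ) :
    ∀ p : ℕ, p.Prime → ∀ j, ‖cut z x p j‖ ≤ 1 := by
  intro p hp j
  unfold cut
  split_ifs
  · simp
  · exact hx p hp j

/-- the primes up to `z` -/
noncomputable def pz (z : ℕ) : Finset ℕ := (Icc 1 z).filter Nat.Prime

theorem mem_pz {z p : ℕ} : p ∈ pz z ↔ p ≤ z ∧ p.Prime := by
  unfold pz
  rw [Finset.mem_filter, Finset.mem_Icc]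
  exact ⟨fun h => ⟨h.1.2, h.2⟩, fun h => ⟨⟨h.2.one_lt.le, h.1⟩, h.2⟩⟩

/-- the logarithm of the Euler product over the primes up to `z` -/
noncomputable def TR (z : ℕ) (x : ℕ → Fin r → ℂ) (ε t : ℝ) : ℂ :=
  ∑ p ∈ pz z, ∑ j, Complex.log (1 - zz x ε t p j)⁻¹

theorem zz_cut (z : ℕ) (ε t : ℝ) (p : ℕ) (j : Fin r) :
    zz (cut z x) ε t p j = if p ≤ z then 0 else zz x ε t p j := by
  unfold zz cut
  split_ifs <;> simp

theorem LG_summable (hx : ∀ p : ℕ, p.Prime → ∀ j, ‖x p j‖ ≤ 1) {ε : ℝ} (hε : 0 < ε) (t : ℝ) :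
    Summable fun p : Nat.Primes => ∑ j, Complex.log (1 - zz x ε t p j)⁻¹ := by
  have e1 := (summable_a hε (fun p hp => norm_tr hx hp) t).of_norm.add (RR_summable hx hε.le t)
  refine e1.congr fun p => ?_
  rw [← sum_zz, ← Finset.sum_add_distrib]
  refine Finset.sum_congr rfl fun j _ => ?_
  unfold ph
  ring

theorem LG_cut (hx : ∀ p : ℕ, p.Prime → ∀ j, ‖x p j‖ ≤ 1) {ε : ℝ} (hε : 0 < ε) (z : ℕ) (t : ℝ) :
    LG x ε t - TR z x ε t = LG (cut z x) ε t := by
  classical
  have h1 := LG_summable hx hε t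
  have h2 := LG_summable (cut_le hx z) hε t
  have e1 : TR z x ε t = ∑' p : Nat.Primes,
      (if (p : ℕ) ≤ z then ∑ j, Complex.log (1 - zz x ε t p j)⁻¹ else 0) := by
    set F : Nat.Primes → ℂ := fun p =>
      if (p : ℕ) ≤ z then ∑ j, Complex.log (1 - zz x ε t p j)⁻¹ else 0 with hF
    set s : Finset Nat.Primes := (Icc 1 z).subtype Nat.Prime with hs
    have e2 : HasSum F (∑ p ∈ s, F p) := by
      refine hasSum_sum_of_ne_finset_zero fun p hp => ?_
      simp only [hF]
      rw [if_neg]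
      intro h
      exact hp (Finset.mem_subtype.2 (Finset.mem_Icc.2 ⟨p.2.one_lt.le, h⟩))
    rw [e2.tsum_eq]
    unfold TR pz
    rw [← Finset.sum_subtype_eq_sum_filter]
    refine Finset.sum_congr rfl fun p hp => ?_
    rw [Finset.mem_subtype, Finset.mem_Icc] at hp
    exact (if_pos hp.2).symm
  have h3 : Summable fun p : Nat.Primes =>
      (if (p : ℕ) ≤ z then ∑ j, Complex.log (1 - zz x ε t p j)⁻¹ else 0) := by
    refine (h1.sub h2).congr fun p => ?_
    simp_rw [zz_cut]
    split_ifs <;> simp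
  unfold LG
  rw [e1, ← h1.tsum_sub h3]
  refine tsum_congr fun p => ?_
  simp_rw [zz_cut]
  split_ifs <;> simp

theorem RR_cut (hx : ∀ p : ℕ, p.Prime → ∀ j, ‖x p j‖ ≤ 1) {ε : ℝ} (hε : 0 ≤ ε) (z : ℕ) (t : ℝ) :
    ‖RR (cut z x) ε t‖ ≤ r * T2 z := by
  have hS : Summable fun m : ℕ => hz z m * ((m : ℝ) ^ 2)⁻¹ :=
    Summable.of_nonneg_of_le (fun m => mul_nonneg (hz_nonneg z m) (by positivity))
      (fun m => mul_le_of_le_one_left (by positivity) (hz_le z m)) sq_summable
  have hSp : Summable fun p : Nat.Primes => hz z p * (((p : ℕ) : ℝ) ^ 2)⁻¹ :=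
    hS.comp_injective (fun a b h => Subtype.ext h)
  have h := tsum_of_norm_bounded (hSp.mul_left (r : ℝ)).hasSum
    (f := fun p : Nat.Primes => ∑ j, ph (zz (cut z x) ε t p j)) fun p => by
      by_cases hp : (p : ℕ) ≤ z
      · have : ∑ j, ph (zz (cut z x) ε t p j) = 0 := by
          refine Finset.sum_eq_zero fun j _ => ?_
          rw [zz_cut, if_pos hp]
          simp [ph]
        rw [this, norm_zero]
        exact mul_nonneg (Nat.cast_nonneg r) (mul_nonneg (hz_nonneg z p) (by positivity))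
      · have e1 : hz z p = 1 := by unfold hz; rw [if_pos (by omega)]
        rw [e1, one_mul]
        exact RR_term (cut_le hx z) hε t p.2
  rw [tsum_mul_left] at h
  refine h.trans (mul_le_mul_of_nonneg_left ?_ (Nat.cast_nonneg r))
  exact Summable.tsum_subtype_le (f := fun m : ℕ => hz z m * ((m : ℝ) ^ 2)⁻¹) {p : ℕ | p.Prime}
    (fun m => mul_nonneg (hz_nonneg z m) (by positivity)) hS

/-- **The tails.** -/
theorem LG_tail (hx : ∀ p : ℕ, p.Prime → ∀ j, ‖x p j‖ ≤ 1) {ε : ℝ} (hε : 0 < ε) (z : ℕ) (τ : ℝ) :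
    ∫ t in τ..(τ + 1), ‖LG (cut z x) ε t‖ ^ 2 ≤ r ^ 2 * Dz z := by
  have hx' := cut_le hx z
  have hp := fun (p : ℕ) (hp : p.Prime) => norm_tr hx' hp
  have hcut : ∀ p : ℕ, p ≤ z → tr (cut z x) p = 0 := fun p hp => by
    unfold tr cut
    simp [hp]
  have h1 := PP_tail (Nat.cast_nonneg r) hp hcut hε τ
  have hc1 : Continuous fun t => ‖PP (tr (cut z x)) ε t‖ ^ 2 := (PP_cont hε hp).norm.pow 2
  have h2 : ∫ t in τ..(τ + 1), ‖LG (cut z x) ε t‖ ^ 2 ≤
      ∫ t in τ..(τ + 1), (2 * ‖PP (tr (cut z x)) ε t‖ ^ 2 + 2 * (r * T2 z) ^ 2) := by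
    refine intervalIntegral.integral_mono_on (by linarith)
      ((((LG_cont hx' hε)).norm.pow 2).intervalIntegrable _ _)
      (((continuous_const.mul hc1).add continuous_const).intervalIntegrable _ _) fun t _ => ?_
    have h3 := RR_cut hx hε.le z t
    have h4 := norm_add_le (PP (tr (cut z x)) ε t) (RR (cut z x) ε t)
    rw [← LG_eq hx' hε] at h4
    have h5 : ‖LG (cut z x) ε t‖ ≤ ‖PP (tr (cut z x)) ε t‖ + r * T2 z := by linarith
    have h6 := pow_le_pow_left₀ (norm_nonneg _) h5 2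
    nlinarith [sq_nonneg (‖PP (tr (cut z x)) ε t‖ - r * T2 z)]
  refine h2.trans ?_
  have hc2 : Continuous fun t => 2 * ‖PP (tr (cut z x)) ε t‖ ^ 2 := continuous_const.mul hc1
  rw [intervalIntegral.integral_add (hc2.intervalIntegrable _ _) (by simp),
    intervalIntegral.integral_const_mul, intervalIntegral.integral_const]
  unfold Dz
  simp only [add_sub_cancel_left, one_smul]
  nlinarith

end

end Pool.Agent.X280.ED
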